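import Pool.Agent.W818.TD.Cover

set_option autoImplicit false

/-! Bridges with an even end, concatenation. -/

namespace Pool.Agent.W818.TD

open H978R2.Hex

/-- last vertex of a (forward) path -/
def la (β : List V) : V := β.getLastD (0, 0)

/-- height of the last vertex -/
def hl (β : List V) : ℤ := (la β).1 - (la β).2

/-- bridges (forward lists) from the origin whose last vertex is even -/
structure EBr (β : List V) : Prop where
  hd : β.head? = some (0, 0)
  ch : β.IsChain Adj
  nd : β.Nodup
  pos : ∀ w ∈ β.tail, 1 ≤ w.1 - w.2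
  top : ∀ w ∈ β, w.1 - w.2 ≤ hl β
  ev : hl β % 2 = 0

theorem EBr.cons {β : List V} (h : EBr β) : ∃ t, β = (0, 0) :: t := by
  have := h.hd
  match β, this with
  | a :: t, this =>
    simp only [List.head?_cons, Option.some.injEq] at this
    exact ⟨t, by rw [this]⟩

theorem la_mem {β : List V} (h : β ≠ []) : la β ∈ β := by
  unfold la
  rw [List.getLastD_eq_getLast?, List.getLast?_eq_getLast_of_ne_nil h]
  exact List.getLast_mem h

theorem EBr.ne {β : List V} (h : EBr β) : β ≠ [] := by
  obtain ⟨t, rfl⟩ := h.cons
  simp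

theorem EBr.nonneg {β : List V} (h : EBr β) : ∀ w ∈ β, 0 ≤ w.1 - w.2 := by
  obtain ⟨t, rfl⟩ := h.cons
  intro w hw
  rcases List.mem_cons.1 hw with rfl | hw
  · simp
  · have := h.pos w (by simpa using hw)
    omega

theorem EBr.hl_nonneg {β : List V} (h : EBr β) : 0 ≤ hl β := h.nonneg _ (la_mem h.ne)

theorem EBr.trivial_of {β : List V} (h : EBr β) (h0 : hl β ≤ 0) : β = [(0, 0)] := by
  obtain ⟨t, rfl⟩ := h.cons
  match t with
  | [] => rfl
  | a :: t =>
    exfalso
    have := h.pos (la ((0, 0) :: a :: t)) (by
      unfold la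
      simp only [List.tail_cons]
      rw [List.getLastD_cons]
      rw [List.getLastD_eq_getLast?, List.getLast?_eq_getLast_of_ne_nil (by simp)]
      exact List.getLast_mem (by simp))
    unfold hl at h0
    omega

theorem EBr.la_even {β : List V} (h : EBr β) : ((la β).1 + (la β).2) % 2 = 0 := by
  have := h.ev
  unfold hl at this
  omega

theorem EBr_triv : EBr [(0, 0)] := by
  refine ⟨rfl, List.isChain_singleton _, List.nodup_singleton _, by simp, ?_, ?_⟩
  · intro w hw
    rw [List.mem_singleton.1 hw]
    simp [hl, la]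
  · simp [hl, la]

/-- translation -/
def tr (c : V) (l : List V) : List V := l.map (fun w => w + c)

theorem adj_tr {c p q : V} (hc : (c.1 + c.2) % 2 = 0) (h : Adj p q) : Adj (p + c) (q + c) := by
  rw [adj_iff] at *
  simp only [Prod.fst_add, Prod.snd_add]
  omega

theorem chain_tr {c : V} (hc : (c.1 + c.2) % 2 = 0) {l : List V} (h : l.IsChain Adj) :
    (tr c l).IsChain Adj := by
  unfold tr
  rw [List.isChain_map]
  exact h.imp fun {a b} hab => adj_tr hc hab

theorem mem_tr {c w : V} {l : List V} : w ∈ tr c l ↔ w - c ∈ l := by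
  unfold tr
  rw [List.mem_map]
  constructor
  · rintro ⟨a, ha, rfl⟩
    simpa using ha
  · intro h
    exact ⟨w - c, h, by simp⟩

theorem nodup_tr {c : V} {l : List V} (h : l.Nodup) : (tr c l).Nodup :=
  h.map (fun a b hab => by simpa using hab)

theorem tr_tr (c d : V) (l : List V) : tr c (tr d l) = tr (d + c) l := by
  unfold tr
  rw [List.map_map]
  apply List.map_congr_left
  intro w _
  simp only [Function.comp_apply]
  abel

theorem tr_length (c : V) (l : List V) : (tr c l).length = l.length := by
  unfold tr
  rw [List.length_map]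

/-- concatenation -/
def cat (β η : List V) : List V := β ++ tr (la β) η.tail

theorem cat_length {β η : List V} (hη : η ≠ []) :
    (cat β η).length = β.length + η.length - 1 := by
  unfold cat
  rw [List.length_append, tr_length, List.length_tail]
  have := List.length_pos_of_ne_nil hη
  omega

theorem cat_triv (β : List V) : cat β [(0, 0)] = β := by
  unfold cat tr
  simp

theorem la_eq {l : List V} (h : l ≠ []) : la l = l.getLast h := by
  unfold la
  rw [List.getLastD_eq_getLast?, List.getLast?_eq_getLast_of_ne_nil h]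
  rfl

theorem la_append {l t : List V} (h : t ≠ []) : la (l ++ t) = la t := by
  rw [la_eq h, la_eq (List.append_ne_nil_of_right_ne_nil _ h), List.getLast_append_of_ne_nil]

theorem la_cons {a : V} {t : List V} (h : t ≠ []) : la (a :: t) = la t := by
  rw [la_eq h, la_eq (List.cons_ne_nil _ _), List.getLast_cons h]

theorem la_tr {c : V} {t : List V} (h : t ≠ []) : la (tr c t) = la t + c := by
  unfold tr
  rw [la_eq h, la_eq (by simpa using h), List.getLast_map]

theorem tr_ne {c : V} {t : List V} (h : t ≠ []) : tr c t ≠ [] := by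
  unfold tr
  simpa using h

theorem la_cat {β η : List V} (hη : EBr η) : la (cat β η) = la η + la β := by
  obtain ⟨t, rfl⟩ := hη.cons
  unfold cat
  simp only [List.tail_cons]
  by_cases h : t = []
  · subst h
    simp [tr, la]
  · rw [la_append (tr_ne h), la_tr h, la_cons h]

theorem hl_cat {β η : List V} (hη : EBr η) : hl (cat β η) = hl β + hl η := by
  unfold hl
  rw [la_cat hη]
  simp only [Prod.fst_add, Prod.snd_add]
  ring

theorem cat_EBr {β η : List V} (hβ : EBr β) (hη : EBr η) : EBr (cat β η) := by
  have hlc := hl_cat (β := β) hη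
  have he := hβ.la_even
  have h0 := hη.hl_nonneg
  have h00 := hβ.hl_nonneg
  obtain ⟨t, ht⟩ := hη.cons
  have htl : η.tail = t := by rw [ht]; rfl
  have hpos : ∀ w ∈ tr (la β) t, hl β + 1 ≤ w.1 - w.2 := by
    intro w hw
    rw [mem_tr] at hw
    have := hη.pos (w - la β) (by rw [htl]; exact hw)
    simp only [Prod.fst_sub, Prod.snd_sub] at this
    unfold hl
    omega
  have hcat : cat β η = β ++ tr (la β) t := by unfold cat; rw [htl]
  refine ⟨?_, ?_, ?_, ?_, ?_, ?_⟩
  · rw [hcat, List.head?_append, hβ.hd]
    rfl
  · rw [hcat, List.isChain_append]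
    have hch := hη.ch
    rw [ht] at hch
    refine ⟨hβ.ch, chain_tr he hch.tail, ?_⟩
    intro x hx y hy
    have hx' : x = la β := by
      unfold la
      rw [List.getLastD_eq_getLast?]
      rw [Option.mem_def] at hx
      rw [hx]
      rfl
    match t, hch, hy with
    | [], _, hy => simp [tr] at hy
    | a :: t', hch, hy =>
      have h1 := (List.isChain_cons_cons.1 hch).1
      have h2 := adj_tr he h1
      simp only [tr, List.map_cons, List.head?_cons, Option.mem_def, Option.some.injEq] at hy
      rw [hx', ← hy]
      have e : ((0, 0) : V) + la β = la β := by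
        ext <;> simp
      rw [e] at h2
      exact h2
  · rw [hcat, List.nodup_append]
    have hnd := hη.nd
    rw [ht] at hnd
    refine ⟨hβ.nd, nodup_tr (List.nodup_cons.1 hnd).2, ?_⟩
    intro a ha b hb hab
    have h1 := hβ.top a ha
    have h2 := hpos b hb
    rw [hab] at h1
    omega
  · intro w hw
    obtain ⟨s, hs⟩ := hβ.cons
    have hw' : w ∈ β.tail ∨ w ∈ tr (la β) t := by
      rw [hcat] at hw
      have e : (β ++ tr (la β) t).tail = β.tail ++ tr (la β) t := by
        rw [hs]
        simp
      rw [e] at hw
      exact List.mem_append.1 hw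
    rcases hw' with h | h
    · exact hβ.pos w h
    · have := hpos w h
      omega
  · intro w hw
    rw [hcat] at hw
    rw [hlc]
    rcases List.mem_append.1 hw with h | h
    · have := hβ.top w h
      omega
    · rw [mem_tr] at h
      have := hη.top (w - la β) (by rw [ht]; exact List.mem_cons_of_mem _ h)
      simp only [Prod.fst_sub, Prod.snd_sub] at this
      have e : hl β = (la β).1 - (la β).2 := rfl
      omega
  · rw [hlc]
    have := hβ.ev
    have := hη.ev
    omega

theorem cat_assoc {β η ζ : List V} (hβ : EBr β) (hη : EBr η) :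
    cat (cat β η) ζ = cat β (cat η ζ) := by
  have h1 := la_cat (β := β) hη
  obtain ⟨t, ht⟩ := hη.cons
  unfold cat at *
  rw [h1]
  have e : (η ++ tr (la η) ζ.tail).tail = η.tail ++ tr (la η) ζ.tail := by
    rw [ht]; simp
  rw [e]
  have e2 : tr (la β) (η.tail ++ tr (la η) ζ.tail) =
      tr (la β) η.tail ++ tr (la η + la β) ζ.tail := by
    rw [← tr_tr]
    unfold tr
    rw [List.map_append]
  rw [e2, List.append_assoc]

/-- splitting a bridge at a prefix which is a bridge -/
theorem split_at {β β' t : List V} (hβ : EBr β) (hβ' : EBr β') (h : β' = β ++ t)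
    (hpos : ∀ w ∈ t, hl β < w.1 - w.2) : ∃ η, EBr η ∧ β' = cat β η := by
  have he := hβ.la_even
  have he' : ((-(la β)).1 + (-(la β)).2) % 2 = 0 := by
    simp only [Prod.fst_neg, Prod.snd_neg]
    omega
  have hback : tr (la β) (tr (-(la β)) t) = t := by
    rw [tr_tr]
    unfold tr
    simp
  set η : List V := (0, 0) :: tr (-(la β)) t with hη
  have hcat : β' = cat β η := by
    unfold cat
    rw [hη, List.tail_cons, hback, h]
  have hla : la η + la β = la β' := by
    rw [h, hη]
    by_cases ht : t = []
    · subst ht
      simp [tr, la]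
    · rw [la_append ht, la_cons (tr_ne ht), la_tr ht]
      simp
  have hlη : hl η = hl β' - hl β := by
    unfold hl
    rw [← hla]
    simp only [Prod.fst_add, Prod.snd_add]
    ring
  have hmem : ∀ w ∈ tr (-(la β)) t, w + la β ∈ t := by
    intro w hw
    rw [mem_tr, sub_neg_eq_add] at hw
    exact hw
  refine ⟨η, ⟨rfl, ?_, ?_, ?_, ?_, ?_⟩, hcat⟩
  · have hch := hβ'.ch
    rw [h, List.isChain_append] at hch
    rw [hη, List.isChain_cons]
    refine ⟨?_, chain_tr he' hch.2.1⟩
    intro y hy
    match t, hch, hy with
    | [], _, hy => simp [tr] at hy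
    | a :: t', hch, hy =>
      simp only [tr, List.map_cons, List.head?_cons, Option.mem_def, Option.some.injEq] at hy
      have h1 := hch.2.2 (la β) (by
        rw [Option.mem_def, List.getLast?_eq_getLast_of_ne_nil hβ.ne]
        unfold la
        rw [List.getLastD_eq_getLast?, List.getLast?_eq_getLast_of_ne_nil hβ.ne]
        rfl) a (by simp)
      have h2 := adj_tr he' h1
      rw [← hy]
      have e : la β + -(la β) = ((0, 0) : V) := by
        rw [add_neg_cancel]
        rfl
      rw [e] at h2
      exact h2
  · have hnd := hβ'.nd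
    rw [h, List.nodup_append] at hnd
    rw [hη, List.nodup_cons]
    refine ⟨?_, nodup_tr hnd.2.1⟩
    intro h0
    have h1 := hpos _ (hmem _ h0)
    simp only [Prod.fst_add, Prod.snd_add] at h1
    unfold hl at h1
    omega
  · intro w hw
    rw [hη, List.tail_cons] at hw
    have h1 := hpos _ (hmem _ hw)
    simp only [Prod.fst_add, Prod.snd_add] at h1
    unfold hl at h1
    omega
  · intro w hw
    rw [hlη]
    rw [hη] at hw
    rcases List.mem_cons.1 hw with rfl | hw
    · have := hβ'.top (la β) (by rw [h]; exact List.mem_append_left _ (la_mem hβ.ne))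
      have e : hl β = (la β).1 - (la β).2 := rfl
      simp only
      omega
    · have h1 := hβ'.top _ (by rw [h]; exact List.mem_append_right _ (hmem _ hw))
      simp only [Prod.fst_add, Prod.snd_add] at h1
      have e : hl β = (la β).1 - (la β).2 := rfl
      omega
  · have h1 := hβ.ev
    have h2 := hβ'.ev
    omega

/-- bridges higher than `H` which are not decomposable above `H` -/
def Fst (H : ℤ) (β : List V) : Prop :=
  EBr β ∧ H < hl β ∧ ∀ β1 η, EBr β1 → EBr η → H < hl β1 → β = cat β1 η → η = [(0, 0)]

theorem exists_fst {H : ℤ} : ∀ (n : ℕ) (β : List V), β.length ≤ n → EBr β → H < hl β →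
    ∃ β1 η, Fst H β1 ∧ EBr η ∧ β = cat β1 η := by
  intro n
  induction n with
  | zero =>
    intro β h1 h2 _
    exact absurd (List.length_eq_zero_iff.1 (by omega)) h2.ne
  | succ n ih =>
    intro β h1 h2 h3
    by_cases hF : Fst H β
    · exact ⟨β, [(0, 0)], hF, EBr_triv, (cat_triv β).symm⟩
    · unfold Fst at hF
      push Not at hF
      obtain ⟨β1, η, b1, b2, b3, b4, b5⟩ := hF h2 h3
      have hlen : β1.length ≤ n := by
        have h4 := cat_length (β := β1) b2.ne
        rw [← b4] at h4
        obtain ⟨t, ht⟩ := b2.cons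
        have : t ≠ [] := by
          rintro rfl
          exact b5 ht
        have h5 := List.length_pos_of_ne_nil this
        rw [ht, List.length_cons] at h4
        omega
      obtain ⟨β1', η', c1, c2, c3⟩ := ih β1 hlen b1 b3
      refine ⟨β1', cat η' η, c1, cat_EBr c2 b2, ?_⟩
      rw [b4, c3, cat_assoc c1.1 c2]

/-- two first cuts which are prefixes of the same path agree -/
theorem fst_prefix {H : ℤ} {β β' t : List V} (hβ : Fst H β) (hβ' : Fst H β') (h : β' = β ++ t)
    (hpos : ∀ w ∈ t, hl β < w.1 - w.2) : β' = β := by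
  obtain ⟨η, h1, h2⟩ := split_at hβ.1 hβ'.1 h hpos
  have := hβ'.2.2 β η hβ.1 h1 hβ.2.1 h2
  rw [h2, this, cat_triv]

/-- uniqueness of the first cut -/
theorem fst_unique {H : ℤ} {β β' η η' : List V} (hβ : Fst H β) (hβ' : Fst H β') (hη : EBr η)
    (hη' : EBr η') (h : cat β η = cat β' η') : β = β' ∧ η = η' := by
  have key : ∀ {β β' η η' : List V}, Fst H β → Fst H β' → EBr η → EBr η' →
      cat β η = cat β' η' → β.length ≤ β'.length → β' = β := by
    intro β β' η η' hβ hβ' hη hη' h hlen
    have hp : β <+: β' := by
      have h1 : β <+: cat β η := ⟨_, rfl⟩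
      have h2 : β' <+: cat β η := by rw [h]; exact ⟨_, rfl⟩
      exact List.prefix_of_prefix_length_le h1 h2 hlen
    obtain ⟨t, ht⟩ := hp
    refine fst_prefix hβ hβ' ht.symm ?_
    intro w hw
    have h3 : w ∈ tr (la β) η.tail := by
      have h4 : cat β η = β ++ (t ++ tr (la β') η'.tail) := by
        rw [h]
        unfold cat
        rw [← ht, List.append_assoc]
      unfold cat at h4
      rw [List.append_cancel_left h4]
      exact List.mem_append_left _ hw
    rw [mem_tr] at h3
    have := hη.pos _ h3
    simp only [Prod.fst_sub, Prod.snd_sub] at this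
    unfold hl
    omega
  have hb : β = β' := by
    rcases le_total β.length β'.length with hl | hl
    · exact (key hβ hβ' hη hη' h hl).symm
    · exact key hβ' hβ hη' hη h.symm hl
  refine ⟨hb, ?_⟩
  subst hb
  unfold cat at h
  have h1 := List.append_cancel_left h
  unfold tr at h1
  have h2 := List.map_injective_iff.2 (fun (a b : V) (hab : a + la β = b + la β) =>
    add_right_cancel hab) h1
  obtain ⟨t, rfl⟩ := hη.cons
  obtain ⟨t', rfl⟩ := hη'.cons
  simp only [List.tail_cons] at h2
  rw [h2]

end Pool.Agent.W818.TD
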