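import Pool.Agent.W818.TD.Tube

set_option autoImplicit false

/-! Chains of blocks, and the sum over the positions of the tube. -/

namespace Pool.Agent.W818.TD

open H978R2.Hex

/-- truncated strip -/
def St (d R : ℤ) (v : V) : Prop := 1 ≤ v.1 - v.2 ∧ v.1 - v.2 ≤ d ∧ -R ≤ v.2 ∧ v.2 ≤ R

theorem tube_St {d R y0 g : ℤ} (hd : d % 2 = 0) (hd2 : 2 ≤ d) (hg : 1 ≤ g) (h1 : -R ≤ y0)
    (h2 : y0 + g - 1 ≤ R) (hR : 0 ≤ R) : Tube (St d R) d y0 g := by
  refine ⟨fun v h => h.1, fun v h => h.2.1, ?_, hd, hg, ?_, ?_⟩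
  · unfold St
    simp only
    omega
  · intro v h3 h4 h5
    unfold St
    omega
  · intro v z hv ha hz hz1 hc
    rw [adj_iff] at ha
    unfold St at hv hz
    by_cases hr : R < z.2
    · left
      refine ⟨?_, by omega⟩
      intro w hw e
      unfold St at hw
      omega
    · right
      refine ⟨?_, by omega⟩
      intro w hw e
      unfold St at hw
      omega

/-- the level after `k` pairs of blocks -/
def dk (d g : ℤ) : ℕ → ℤ
  | 0 => d
  | k + 1 => dk d g k + 4 * g

/-- the row after `k` pairs of blocks -/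
def yk (y g : ℤ) : ℕ → ℤ
  | 0 => y
  | k + 1 => yk y g k - g

theorem dk_eq (d g : ℤ) (k : ℕ) : dk d g k = d + 4 * g * k := by
  induction k with
  | zero => simp [dk]
  | succ k ih => rw [dk, ih]; push_cast; ring

theorem dk_yk (d y g : ℤ) (k : ℕ) : dk d g k + 4 * yk y g k = d + 4 * y := by
  induction k with
  | zero => simp [dk, yk]
  | succ k ih => rw [dk, yk]; omega

/-- the domain with `k` pairs of blocks -/
def TD (d R y g : ℤ) : ℕ → V → Prop
  | 0 => St d R
  | k + 1 => fun v => (TD d R y g k v ∨ pp (dk d g k) (yk y g k) g v) ∨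
      pm (dk d g k + 2 * g) (yk y g k) g v

theorem tube_TD {d R y g : ℤ} (hd : d % 2 = 0) (hd2 : 2 ≤ d) (hg : 1 ≤ g) (h1 : -R ≤ y)
    (h2 : y + g - 1 ≤ R) (hR : 0 ≤ R) (k : ℕ) :
    Tube (TD d R y g k) (dk d g k) (yk y g k) g := by
  induction k with
  | zero => exact tube_St hd hd2 hg h1 h2 hR
  | succ k ih =>
    have := tube_pm (tube_pp ih)
    rw [dk, yk]
    have e : dk d g k + 2 * g + 2 * g = dk d g k + 4 * g := by ring
    rw [e] at this
    exact this

theorem fin_box (a b c d : ℤ) : {v : V | a ≤ v.1 ∧ v.1 ≤ b ∧ c ≤ v.2 ∧ v.2 ≤ d}.Finite := by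
  refine (Set.finite_Icc ((a, c) : V) (b, d)).subset ?_
  rintro v ⟨h1, h2, h3, h4⟩
  exact ⟨⟨h1, h3⟩, ⟨h2, h4⟩⟩

theorem fin_St (d R : ℤ) : {v | St d R v}.Finite := by
  refine (fin_box (1 - R) (d + R) (-R) R).subset ?_
  intro v hv
  unfold St at hv
  simp only [Set.mem_ofPred_eq] at hv ⊢
  omega

theorem fin_pp (d y g : ℤ) : {v | pp d y g v}.Finite := by
  refine (fin_box (d + 1 + y) (d + 2 * g + y + g - 1) y (y + g - 1)).subset ?_
  intro v hv
  unfold pp at hv
  simp only [Set.mem_ofPred_eq] at hv ⊢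
  omega

theorem fin_pm (d y g : ℤ) : {v | pm d y g v}.Finite := by
  refine (fin_box (d + y) (d + y + 2 * g) (y - g) (y + g)).subset ?_
  intro v hv
  unfold pm at hv
  simp only [Set.mem_ofPred_eq] at hv ⊢
  omega

theorem fin_TD (d R y g : ℤ) (k : ℕ) : {v | TD d R y g k v}.Finite := by
  induction k with
  | zero => exact fin_St d R
  | succ k ih => exact (ih.union (fin_pp _ _ _)).union (fin_pm _ _ _)

theorem tube_bound {d R y g : ℤ} (hd : d % 2 = 0) (hd2 : 2 ≤ d) (hg : 1 ≤ g) (h1 : -R ≤ y)
    (h2 : y + g - 1 ≤ R) (hR : 0 ≤ R) (k : ℕ) (S : Finset V)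
    (hS : ∀ v, TD d R y g k v → v ∈ S) (n : ℕ) (hn : S.card ≤ n) :
    cm (TD d R y g k) (dk d g k) (yk y g k) g n ≤ (1 / 2) ^ k * cm (St d R) d y g n := by
  induction k with
  | zero => simp [TD, dk, yk]
  | succ k ih =>
    have T := tube_TD hd hd2 hg h1 h2 hR k
    have a1 := step_pp T S (fun v hv => hS v (Or.inl hv)) n hn
    have a2 := step_pm (tube_pp T) S (fun v hv => hS v hv) n hn
    have a3 := ih (fun v hv => hS v (Or.inl (Or.inl hv)))
    have e : dk d g k + 2 * g + 2 * g = dk d g k + 4 * g := by ring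
    rw [e] at a2
    have hs := sin2_pos
    have hq := sin2_sq
    calc cm (TD d R y g (k + 1)) (dk d g (k + 1)) (yk y g (k + 1)) g n
        ≤ Real.sin (2 * (Real.pi / 8)) *
          cm (fun v => TD d R y g k v ∨ pp (dk d g k) (yk y g k) g v) (dk d g k + 2 * g)
            (yk y g k) g n := a2
      _ ≤ Real.sin (2 * (Real.pi / 8)) * (Real.sin (2 * (Real.pi / 8)) *
          cm (TD d R y g k) (dk d g k) (yk y g k) g n) := mul_le_mul_of_nonneg_left a1 hs.le
      _ = (1 / 2) * cm (TD d R y g k) (dk d g k) (yk y g k) g n := by rw [← hq]; ring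
      _ ≤ (1 / 2) * ((1 / 2) ^ k * cm (St d R) d y g n) :=
          mul_le_mul_of_nonneg_left a3 (by norm_num)
      _ = (1 / 2) ^ (k + 1) * cm (St d R) d y g n := by ring

/-- a window of lateral coordinates is contained in the tube -/
theorem mem_TD {d R y g : ℤ} (hg : 1 ≤ g) (k : ℕ) (v : V) (h1 : 1 ≤ v.1 - v.2)
    (h2 : v.1 - v.2 ≤ dk d g k) (h3 : -R ≤ v.2) (h4 : v.2 ≤ R)
    (h5 : d < v.1 - v.2 → d + 2 * g + 4 * y ≤ v.1 + 3 * v.2 ∧
      v.1 + 3 * v.2 ≤ d + 4 * g + 4 * y - 2) : TD d R y g k v := by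
  induction k with
  | zero =>
    exact ⟨h1, h2, h3, h4⟩
  | succ k ih =>
    have e := dk_yk d y g k
    have hdk : d ≤ dk d g k := by
      rw [dk_eq]
      have : 0 ≤ 4 * g * (k : ℤ) := by positivity
      omega
    rw [dk] at h2
    by_cases hc : v.1 - v.2 ≤ dk d g k
    · exact Or.inl (Or.inl (ih hc))
    · have h6 := h5 (by omega)
      by_cases hc2 : v.1 - v.2 ≤ dk d g k + 2 * g
      · left; right
        unfold pp
        omega
      · right
        unfold pm
        omega

/-- the last vertex of the tube is in the last opening -/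
theorem last_cap {d R y g : ℤ} (hd : d % 2 = 0) (hd2 : 2 ≤ d) (hg : 1 ≤ g) (h1 : -R ≤ y)
    (h2 : y + g - 1 ≤ R) (hR : 0 ≤ R) {k : ℕ} {v z : V} (hv : TD d R y g k v)
    (hz : z.1 - z.2 = dk d g k + 1) (hvz : Adj v z)
    (h5 : d + 2 * g + 4 * y ≤ v.1 + 3 * v.2 ∧ v.1 + 3 * v.2 ≤ d + 4 * g + 4 * y - 2) :
    capZ (dk d g k) (yk y g k) g z := by
  have T := tube_TD hd hd2 hg h1 h2 hR k
  have hle := T.le v hv
  have hev := T.ev
  have e := dk_yk d y g k
  rw [adj_iff] at hvz
  unfold capZ
  omega

/-- the last level of the tube is the opening -/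
theorem sharp_cap {d R y g : ℤ} (hd : d % 2 = 0) (hd2 : 2 ≤ d) (hg : 1 ≤ g) (h1 : -R ≤ y)
    (h2 : y + g - 1 ≤ R) (hR : 0 ≤ R) {k : ℕ} {v : V} (hv : TD d R y g (k + 1) v)
    (hL : v.1 - v.2 = dk d g (k + 1)) :
    yk y g (k + 1) ≤ v.2 ∧ v.2 ≤ yk y g (k + 1) + g - 1 := by
  have T := tube_TD hd hd2 hg h1 h2 hR k
  rw [dk] at hL
  rcases hv with (hv | hv) | hv
  · have := T.le v hv
    omega
  · unfold pp at hv
    omega
  · unfold pm at hv
    rw [yk]
    omega

/-- upper strip -/
def Up (d T R : ℤ) (v : V) : Prop := d + 1 ≤ v.1 - v.2 ∧ v.1 - v.2 ≤ T ∧ -R ≤ v.2 ∧ v.2 ≤ R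

theorem fin_Up (d T R : ℤ) : {v | Up d T R v}.Finite := by
  refine (fin_box (d + 1 - R) (T + R) (-R) R).subset ?_
  intro v hv
  unfold Up at hv
  simp only [Set.mem_ofPred_eq] at hv ⊢
  omega

theorem good_up {D : V → Prop} {d y0 g T R : ℤ} (hT : Tube D d y0 g) (hTe : T % 2 = 0)
    (hdT : d + 1 ≤ T) (h1 : -R ≤ y0) (h2 : y0 + g - 1 ≤ R)
    (hsharp : ∀ w, D w → w.1 - w.2 = d → y0 ≤ w.2 ∧ w.2 ≤ y0 + g - 1) :
    Good (fun v => D v ∨ Up d T R v) := by
  have hg := hT.gpos
  have hd := hT.dpos
  have hev := hT.ev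
  refine ⟨?_, Or.inl hT.base, ?_⟩
  · rintro v (h | h)
    · exact hT.hp v h
    · unfold Up at h; omega
  · intro v z hv ha hz hz1
    rw [not_or] at hz
    obtain ⟨hzD, hzU⟩ := hz
    have ha' := ha
    rw [adj_iff] at ha'
    rcases hv with hv | hv
    · have hle := hT.le v hv
      by_cases hc : z.1 - z.2 ≤ d
      · rcases hT.ex v z hv ha hzD hz1 hc with h | h
        · left
          refine ⟨?_, h.2⟩
          rintro w (hw | hw) e
          · exact h.1 w hw e
          · unfold Up at hw; omega
        · right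
          refine ⟨?_, h.2⟩
          rintro w (hw | hw) e
          · exact h.1 w hw e
          · unfold Up at hw; omega
      · exfalso
        have := hsharp v hv (by omega)
        apply hzU
        unfold Up
        omega
    · unfold Up at hv hzU
      by_cases hc : z.1 - z.2 = d
      · have hcap := hT.cap z hc
        by_cases hr : z.2 < y0
        · right
          refine ⟨?_, by omega⟩
          rintro w (hw | hw) e
          · have := hsharp w hw (by omega); omega
          · unfold Up at hw; omega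
        · left
          have : ¬ z.2 ≤ y0 + g - 1 := fun h => hzD (hcap (by omega) h)
          refine ⟨?_, by omega⟩
          rintro w (hw | hw) e
          · have := hsharp w hw (by omega); omega
          · unfold Up at hw; omega
      · by_cases hr : z.2 < -R
        · right
          refine ⟨?_, by omega⟩
          rintro w (hw | hw) e
          · have := hT.le w hw; omega
          · unfold Up at hw; omega
        · left
          refine ⟨?_, by omega⟩
          rintro w (hw | hw) e
          · have := hT.le w hw; omega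
          · unfold Up at hw; omega

/-- the mass which crosses the upper strip is at most the mass of the opening -/
theorem step_up {D : V → Prop} {d y0 g T R : ℤ} (hT : Tube D d y0 g) (hTe : T % 2 = 0)
    (hdT : d + 1 ≤ T) (h1 : -R ≤ y0) (h2 : y0 + g - 1 ≤ R)
    (hsharp : ∀ w, D w → w.1 - w.2 = d → y0 ≤ w.2 ∧ w.2 ≤ y0 + g - 1) (S : Finset V)
    (hS : ∀ v, D v ∨ Up d T R v → v ∈ S) (n : ℕ) (hn : S.card ≤ n) :
    mf (fun v => D v ∨ Up d T R v) n (fun z => z.1 - z.2 = T + 1) ≤ cm D d y0 g n := by
  have hg := hT.gpos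
  have hd := hT.dpos
  have hev := hT.ev
  have G := good_up hT hTe hdT h1 h2 hsharp
  have key := contract hT.good G (fun v hv => Or.inl hv) S hS n hn 1 (Or.inl rfl) 0 0
    (fun z => z.1 - z.2 = T + 1) (fun z v K hD hz => by
      have hv := hD.h5 v List.mem_cons_self
      have hle := hT.le v hv
      have ha := hD.h2
      rcases hz with hz | hz
      · exact absurd hz hD.hz
      · unfold Up at hz
        rw [adj_iff] at ha
        exact (wind_ge hT.good hD (by omega)).1 (by omega) (by omega))
    (fun z v K hD hz => by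
      have hv := hD.h5 v List.mem_cons_self
      have ha := hD.h2
      rw [adj_iff] at ha
      have hv2 : v.1 - v.2 ≤ T := by
        rcases hv with hv | hv
        · have := hT.le v hv; omega
        · unfold Up at hv; omega
      refine ⟨(wind_ge G hD (by omega)).1 (by omega) (by omega), ?_⟩
      intro h
      have := hT.le v h
      omega)
  rw [ph_eq 1 0 3 (by ring)] at key
  push_cast at key
  refine (le_of_mul_le_mul_left key sin3_pos).trans ?_
  unfold cm mf
  apply ms_mono
  intro l hl
  rw [mem_lf] at hl ⊢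
  refine ⟨hl.1, ?_⟩
  obtain ⟨z, v, K, rfl, hD⟩ := val_of_LS hT.good hl.1
  have hz := hl.2
  simp only [List.headD_cons] at hz ⊢
  have hv := hD.h5 v List.mem_cons_self
  have hle := hT.le v hv
  have ha := hD.h2
  rcases hz with hz | hz
  · exact absurd hz hD.hz
  · unfold Up at hz
    rw [adj_iff] at ha
    have := hsharp v hv (by omega)
    unfold capZ
    omega

theorem Val_of {Om : V → Prop} : ∀ {l : List V}, l.IsChain (fun x y => Adj y x) → l.Nodup →
    (∀ v ∈ l.tail.dropLast, Om v) → (∃ M, l = M ++ [(1, 0), (0, 0)]) → Val Om l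
  | [], _, _, _, h => by
    obtain ⟨M, hM⟩ := h
    simp at hM
  | [_], _, _, _, h => by
    obtain ⟨M, hM⟩ := h
    match M, hM with
    | [], hM => simp at hM
    | _ :: _, hM => simp at hM
  | [z, y], _, _, _, h => by
    obtain ⟨M, hM⟩ := h
    match M, hM with
    | [], hM =>
      simp only [List.nil_append, List.cons.injEq, and_true] at hM
      exact hM
    | [_], hM => simp at hM
    | _ :: _ :: _, hM => simp at hM
  | z :: y :: x :: t, hc, hn, hd, h => by
    rw [List.isChain_cons_cons] at hc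
    have hn' := List.nodup_cons.1 hn
    have hn2 := List.nodup_cons.1 hn'.2
    simp only [List.tail_cons] at hd
    rw [List.dropLast_cons_of_ne_nil (by simp)] at hd
    refine ⟨hc.1, ?_, hd y List.mem_cons_self, hn2.1, Val_of hc.2 hn'.2 ?_ ?_⟩
    · rintro rfl
      exact hn'.1 (by simp)
    · simp only [List.tail_cons]
      intro v hv
      exact hd v (List.mem_cons_of_mem _ hv)
    · obtain ⟨M, hM⟩ := h
      match M, hM with
      | [], hM => simp at hM
      | a :: M', hM =>
        refine ⟨M', ?_⟩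
        simp only [List.cons_append, List.cons.injEq] at hM
        exact hM.2

/-- change of the domain -/
theorem Val_dom {Om Om' : V → Prop} : ∀ {l : List V}, Val Om l → (∀ v ∈ l.tail.dropLast, Om' v) →
    Val Om' l
  | [], h, _ => h.elim
  | [_], h, _ => h.elim
  | [_, _], h, _ => h
  | z :: y :: x :: t, h, hd => by
    obtain ⟨h1, h2, h3, h4, h5⟩ := h
    simp only [List.tail_cons] at hd
    rw [List.dropLast_cons_of_ne_nil (by simp)] at hd
    refine ⟨h1, h2, hd y List.mem_cons_self, h4, Val_dom h5 ?_⟩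
    simp only [List.tail_cons]
    intro v hv
    exact hd v (List.mem_cons_of_mem _ hv)

/-- the vertices of a walk are close to the origin -/
theorem Val_near {Om : V → Prop} : ∀ {l : List V}, Val Om l → ∀ v ∈ l,
    |v.1| ≤ l.length ∧ |v.2| ≤ l.length
  | [], h, _, _ => h.elim
  | [_], h, _, _ => h.elim
  | [z, y], h, v, hv => by
    obtain ⟨rfl, rfl⟩ := h
    simp only [List.mem_cons, List.not_mem_nil, or_false] at hv
    rcases hv with rfl | rfl <;> norm_num
  | z :: y :: x :: t, h, v, hv => by
    obtain ⟨h1, h2, h3, h4, h5⟩ := h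
    have ih := Val_near h5
    rw [List.length_cons]
    push_cast
    rcases List.mem_cons.1 hv with rfl | hv
    · have := ih y List.mem_cons_self
      rw [adj_iff] at h1
      rw [abs_le, abs_le] at *
      omega
    · have := ih v hv
      constructor
      · linarith [this.1]
      · linarith [this.2]

/-- the number of tubes whose opening contains a given row -/
theorem count_rows (s : ℤ) (hs : 1 ≤ s) (y J : ℤ) :
    ((Finset.Icc (-J) J).filter (fun j => j * s ≤ y ∧ y ≤ j * s + 4 * s - 1)).card ≤ 4 := by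
  have h : (Finset.Icc (-J) J).filter (fun j => j * s ≤ y ∧ y ≤ j * s + 4 * s - 1) ⊆
      Finset.Icc (y / s - 3) (y / s) := by
    intro j hj
    rw [Finset.mem_filter] at hj
    rw [Finset.mem_Icc]
    obtain ⟨-, h1, h2⟩ := hj
    constructor
    · have : y < (j + 4) * s := by linarith
      have := (Int.ediv_lt_iff_lt_mul (by omega)).2 this
      omega
    · exact (Int.le_ediv_iff_mul_le (by omega)).2 h1
  have h2 := Finset.card_le_card h
  rw [Int.card_Icc] at h2
  omega

theorem sum_rows (s : ℤ) (hs : 1 ≤ s) (d R J : ℤ) (n : ℕ) :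
    ∑ j ∈ Finset.Icc (-J) J, cm (St d R) d (j * s) (4 * s) n ≤
      4 * mf (St d R) n (fun z => z.1 - z.2 = d + 1) := by
  classical
  have e : ∀ j : ℤ, cm (St d R) d (j * s) (4 * s) n =
      ∑ l ∈ lf (St d R) n (fun z => z.1 - z.2 = d + 1),
        if (j * s ≤ (l.headD (0, 0)).2 ∧ (l.headD (0, 0)).2 ≤ j * s + 4 * s - 1) then wt l else 0 := by
    intro j
    rw [← Finset.sum_filter]
    unfold cm mf ms
    apply Finset.sum_congr _ (fun _ _ => rfl)
    ext l
    rw [Finset.mem_filter, mem_lf, mem_lf]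
    unfold capZ
    tauto
  simp only [e]
  rw [Finset.sum_comm]
  unfold mf ms
  rw [Finset.mul_sum]
  refine Finset.sum_le_sum fun l _ => ?_
  rw [← Finset.sum_filter, Finset.sum_const, nsmul_eq_mul]
  refine mul_le_mul_of_nonneg_right ?_ (wt_nonneg l)
  exact_mod_cast count_rows s hs _ J

/-- **the sum over the positions of the tube** -/
theorem tube_sum (s : ℤ) (hs : 1 ≤ s) (N : ℕ) (hN : 1 ≤ N) (d : ℤ) (hd : d % 2 = 0) (hd2 : 2 ≤ d)
    (e : ℤ) (he : e % 2 = 0) (he0 : 0 ≤ e)
    (F : Finset (List V))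
    (hF : ∀ l ∈ F, ∃ z w K, l = z :: w :: K ∧ Val (fun v => 1 ≤ v.1 - v.2) l ∧
      z.1 - z.2 = d + 16 * s * N + e + 1 ∧
      (∀ v ∈ l.tail.dropLast, v.1 - v.2 ≤ d + 16 * s * N + e) ∧
      ∀ v ∈ l.tail.dropLast, ∀ v' ∈ l.tail.dropLast,
        d < v.1 - v.2 → v.1 - v.2 ≤ d + 16 * s * N →
        d < v'.1 - v'.2 → v'.1 - v'.2 ≤ d + 16 * s * N →
        (v.1 + 3 * v.2) - (v'.1 + 3 * v'.2) ≤ 4 * s - 1) :
    ∃ (R : ℤ) (n : ℕ), ms F ≤
      (1 / 2) ^ N * (4 * mf (St d R) n (fun z => z.1 - z.2 = d + 1)) := by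
  classical
  -- the size of the walks
  obtain ⟨n0, hn0⟩ : ∃ n0 : ℕ, ∀ l ∈ F, l.length ≤ n0 := ⟨F.sup List.length, fun l hl =>
    Finset.le_sup (f := List.length) hl⟩
  obtain ⟨J, hJ⟩ : ∃ J : ℤ, J = 4 * n0 + d + 8 * s + 1 := ⟨_, rfl⟩
  have hJ0 : 0 ≤ J := by
    have : (0 : ℤ) ≤ n0 := by positivity
    omega
  have hsN : 1 ≤ s * (N : ℤ) := by
    have h1 : (1 : ℤ) ≤ N := by exact_mod_cast hN
    nlinarith
  have h16 : 16 * s * (N : ℤ) = 16 * (s * N) := by ring
  obtain ⟨R, hR⟩ : ∃ R : ℤ, R = J * s + 4 * s + n0 + 4 * s * N := ⟨_, rfl⟩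
  have h4sN : 4 * s * (N : ℤ) = 4 * (s * N) := by ring
  have hR0 : 0 ≤ R := by
    have : 0 ≤ J * s := mul_nonneg hJ0 (by omega)
    omega
  have hjs : ∀ j ∈ Finset.Icc (-J) J, -R ≤ j * s - 4 * s * N ∧ j * s + 4 * s - 1 ≤ R := by
    intro j hj
    rw [Finset.mem_Icc] at hj
    have h1 : j * s ≤ J * s := mul_le_mul_of_nonneg_right hj.2 (by omega)
    have h2 : -J * s ≤ j * s := mul_le_mul_of_nonneg_right hj.1 (by omega)
    have h3 : -J * s = -(J * s) := by ring
    omega
  have hyk : ∀ (j : ℤ) (k : ℕ), yk (j * s) (4 * s) k = j * s - 4 * s * k := by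
    intro j k
    induction k with
    | zero => simp [yk]
    | succ k ih => rw [yk, ih]; push_cast; ring
  have hdk : dk d (4 * s) N = d + 16 * s * N := by rw [dk_eq]; ring
  set T : ℤ := d + 16 * s * N + e with hTdef
  -- the final domains
  let DD : ℤ → V → Prop := fun j v =>
    TD d R (j * s) (4 * s) N v ∨ (1 ≤ e ∧ Up (dk d (4 * s) N) T R v)
  let Sf : ℤ → Finset V := fun j =>
    ((fin_TD d R (j * s) (4 * s) N).union (fin_Up (dk d (4 * s) N) T R)).toFinset
  have hSf : ∀ j v, DD j v → v ∈ Sf j := by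
    intro j v hv
    rw [Set.Finite.mem_toFinset]
    rcases hv with hv | hv
    · exact Or.inl hv
    · exact Or.inr hv.2
  obtain ⟨n, hn, hn'⟩ : ∃ n : ℕ, n0 ≤ n ∧ ∀ j ∈ Finset.Icc (-J) J, (Sf j).card ≤ n := by
    refine ⟨n0 + ∑ j ∈ Finset.Icc (-J) J, (Sf j).card, by omega, fun j hj => ?_⟩
    have := Finset.single_le_sum (f := fun j => (Sf j).card) (fun i _ => Nat.zero_le _) hj
    have h2 : (Sf j).card ≤ ∑ j ∈ Finset.Icc (-J) J, (Sf j).card := this
    omega
  refine ⟨R, n, ?_⟩
  set Q : ℤ → V → Prop := fun j z => z.1 - z.2 = T + 1 ∧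
    (e = 0 → capZ (dk d (4 * s) N) (yk (j * s) (4 * s) N) (4 * s) z) with hQ
  set X : ℤ → Finset (List V) := fun j => lf (DD j) n (Q j) with hX
  -- every walk is in one of the domains
  have hcov : ∀ l ∈ F, ∃ j ∈ Finset.Icc (-J) J, l ∈ X j := by
    intro l hl
    obtain ⟨z, w, K, rfl, hval, hz, hle, hext⟩ := hF l hl
    have hlen := hn0 _ hl
    have hnear := Val_near hval
    have hmem : ∀ v ∈ (z :: w :: K).tail.dropLast, v ∈ (z :: w :: K) := by
      intro v hv
      exact List.mem_of_mem_tail (List.mem_of_mem_dropLast hv)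
    have hwz : Adj w z ∧ w ∈ (z :: w :: K).tail.dropLast := by
      match K, hval with
      | [], hval =>
        exfalso
        obtain ⟨rfl, -⟩ := hval
        simp only at hz
        omega
      | x :: t, hval =>
        refine ⟨hval.1, ?_⟩
        simp only [List.tail_cons]
        rw [List.dropLast_cons_of_ne_nil (by simp)]
        exact List.mem_cons_self
    obtain ⟨hadj, hwm⟩ := hwz
    have hwL : w.1 - w.2 = T := by
      have h1 := hle w hwm
      have h2 := hadj
      rw [adj_iff] at h2
      omega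
    have hint : ∀ v ∈ (z :: w :: K).tail.dropLast, 1 ≤ v.1 - v.2 := (Val_tail hval).2
    -- there is a vertex on every level
    have hlev : ∀ (m : List V), m.IsChain (fun x y => Adj y x) → ∀ (t : ℤ),
        (∀ x ∈ m.head?, t ≤ x.1 - x.2) → (∀ x ∈ m.getLast?, x.1 - x.2 ≤ t) → m ≠ [] →
        ∃ x ∈ m, x.1 - x.2 = t := by
      intro m
      induction m with
      | nil => intro _ _ _ _ h; exact absurd rfl h
      | cons a m ih =>
        intro hc t h1 h2 _
        by_cases ha : a.1 - a.2 = t
        · exact ⟨a, List.mem_cons_self, ha⟩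
        · have ha2 := h1 a (by simp)
          match m, ih, hc, h2 with
          | [], _, _, h2 =>
            have := h2 a (by simp)
            omega
          | b :: m, ih, hc, h2 =>
            rw [List.isChain_cons_cons] at hc
            have h3 := adj_levs hc.1
            obtain ⟨x, hx, hxt⟩ := ih hc.2 t (by
              intro x hx
              simp only [List.head?_cons, Option.mem_def, Option.some.injEq] at hx
              rw [← hx]
              omega) (by
              intro x hx
              apply h2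
              rw [List.getLast?_cons_cons]
              exact hx) (by simp)
            exact ⟨x, List.mem_cons_of_mem _ hx, hxt⟩
    obtain ⟨u, hu, huL⟩ : ∃ u ∈ (z :: w :: K).tail.dropLast, u.1 - u.2 = d + 16 * s * N := by
      have hch := (Val_chain hval).1
      obtain ⟨-, -, -, M', hM'⟩ := Val_chain hval
      have hne : (z :: w :: K).tail.dropLast ≠ [] := List.ne_nil_of_mem hwm
      apply hlev _ (hch.tail.dropLast) _ _ _ hne
      · intro x hx
        have : x = w := by
          match K, hx, hne with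
          | [], hx, hne => simp at hne
          | y :: t, hx, _ =>
            simp only [List.tail_cons] at hx
            rw [List.dropLast_cons_of_ne_nil (by simp)] at hx
            simpa using hx.symm
        rw [this]
        omega
      · intro x hx
        have : x = (1, 0) := by
          match M', hM' with
          | [], hM' =>
            exfalso
            simp only [List.nil_append, List.cons.injEq] at hM'
            rw [hM'.1] at hz
            simp only at hz
            omega
          | a :: M'', hM' =>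
            rw [hM'] at hx
            have e1 : ((a :: M'') ++ [((1, 0) : V), (0, 0)]).tail.dropLast = M'' ++ [(1, 0)] := by
              have : ((a :: M'') ++ [((1, 0) : V), (0, 0)]).tail = (M'' ++ [(1, 0)]) ++ [(0, 0)] := by
                simp
              rw [this, List.dropLast_concat]
            rw [e1] at hx
            simpa using hx.symm
        rw [this]
        simp only
        omega
    -- the lowest lateral coordinate
    obtain ⟨v0, hv0, hmin⟩ := Finset.exists_min_image
      (((z :: w :: K).tail.dropLast).toFinset.filter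
        (fun v => d < v.1 - v.2 ∧ v.1 - v.2 ≤ d + 16 * s * N))
      (fun v => v.1 + 3 * v.2) ⟨u, by
        rw [Finset.mem_filter, List.mem_toFinset]
        exact ⟨hu, by omega, by omega⟩⟩
    rw [Finset.mem_filter, List.mem_toFinset] at hv0
    set j := (v0.1 + 3 * v0.2 - d - 8 * s) / (4 * s) with hj
    have hj1 : j * (4 * s) ≤ v0.1 + 3 * v0.2 - d - 8 * s := Int.ediv_mul_le _ (by omega)
    have hj2 : v0.1 + 3 * v0.2 - d - 8 * s < (j + 1) * (4 * s) := Int.lt_ediv_add_one_mul_self _
      (by omega)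
    have hj3 : j * (4 * s) = 4 * (j * s) := by ring
    have hj4 : (j + 1) * (4 * s) = 4 * (j * s) + 4 * s := by ring
    rw [hj3] at hj1
    rw [hj4] at hj2
    have hv0n := hnear v0 (hmem v0 hv0.1)
    have hlen' : ((z :: w :: K).length : ℤ) ≤ n0 := by exact_mod_cast hlen
    rw [abs_le, abs_le] at hv0n
    have hjJ : j ∈ Finset.Icc (-J) J := by
      rw [Finset.mem_Icc]
      constructor
      · by_contra hc
        have h1 : j ≤ -J - 1 := by omega
        have h2 : j * s ≤ (-J - 1) * s := mul_le_mul_of_nonneg_right h1 (by omega)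
        have h3 : (-J - 1) * s ≤ (-J - 1) * 1 := by
          apply mul_le_mul_of_nonpos_left hs (by omega)
        omega
      · by_contra hc
        have h1 : J + 1 ≤ j := by omega
        have h2 : (J + 1) * s ≤ j * s := mul_le_mul_of_nonneg_right h1 (by omega)
        have h3 : (J + 1) * 1 ≤ (J + 1) * s := by
          apply mul_le_mul_of_nonneg_left hs (by omega)
        omega
    refine ⟨j, hjJ, ?_⟩
    have hjs' := hjs j hjJ
    have hT := tube_TD (R := R) (y := j * s) (g := 4 * s) hd hd2 (by omega) (by omega) hjs'.2 hR0 N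
    have hwin : ∀ v ∈ (z :: w :: K).tail.dropLast, d < v.1 - v.2 → v.1 - v.2 ≤ d + 16 * s * N →
        d + 2 * (4 * s) + 4 * (j * s) ≤ v.1 + 3 * v.2 ∧
          v.1 + 3 * v.2 ≤ d + 4 * (4 * s) + 4 * (j * s) - 2 := by
      intro v hv hvd hvd'
      have h1 := hmin v (by
        rw [Finset.mem_filter, List.mem_toFinset]
        exact ⟨hv, hvd, hvd'⟩)
      have h2 := hext v hv v0 hv0.1 hvd hvd' hv0.2.1 hv0.2.2
      omega
    have hRn : (n0 : ℤ) ≤ R := by
      have : 0 ≤ J * s := mul_nonneg hJ0 (by omega)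
      omega
    have hTD : ∀ v ∈ (z :: w :: K).tail.dropLast, v.1 - v.2 ≤ d + 16 * s * N →
        TD d R (j * s) (4 * s) N v := by
      intro v hv hvd
      have hvn := hnear v (hmem v hv)
      rw [abs_le, abs_le] at hvn
      exact mem_TD (by omega) N v (hint v hv) (by rw [hdk]; exact hvd) (by omega) (by omega)
        (fun h => hwin v hv h hvd)
    have hDD : ∀ v ∈ (z :: w :: K).tail.dropLast, DD j v := by
      intro v hv
      by_cases hc : v.1 - v.2 ≤ d + 16 * s * N
      · exact Or.inl (hTD v hv hc)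
      · right
        have hvn := hnear v (hmem v hv)
        rw [abs_le, abs_le] at hvn
        have := hle v hv
        refine ⟨by omega, ?_⟩
        unfold Up
        rw [hdk]
        omega
    rw [hX, mem_lf, mem_LS]
    refine ⟨⟨Val_dom hval hDD, by omega, ?_⟩, ?_⟩
    · rintro (h | h)
      · have := hT.le z (by simpa using h)
        omega
      · have h3 := h.2
        simp only [List.headD_cons] at h3
        unfold Up at h3
        omega
    · simp only [List.headD_cons]
      refine ⟨by omega, fun h0 => ?_⟩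
      exact last_cap hd hd2 (by omega) (by omega) hjs'.2 hR0 (hTD w hwm (by omega)) (by omega) hadj
        (hwin w hwm (by omega) (by omega))
  -- the sum
  have h1 : ms F ≤ ∑ j ∈ Finset.Icc (-J) J, ms (X j) := by
    unfold ms
    calc ∑ l ∈ F, wt l ≤ ∑ l ∈ F, ∑ j ∈ Finset.Icc (-J) J, if l ∈ X j then wt l else 0 := by
          refine Finset.sum_le_sum fun l hl => ?_
          obtain ⟨j, hj, hlj⟩ := hcov l hl
          have := Finset.single_le_sum (f := fun j => if l ∈ X j then wt l else 0)
            (fun i _ => by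
              split_ifs
              · exact wt_nonneg l
              · exact le_rfl) hj
          simpa [hlj] using this
      _ = ∑ j ∈ Finset.Icc (-J) J, ∑ l ∈ F, if l ∈ X j then wt l else 0 := Finset.sum_comm
      _ ≤ ∑ j ∈ Finset.Icc (-J) J, ∑ l ∈ X j, wt l := by
          refine Finset.sum_le_sum fun j _ => ?_
          rw [← Finset.sum_filter]
          apply Finset.sum_le_sum_of_subset_of_nonneg
          · intro l hl
            exact (Finset.mem_filter.1 hl).2
          · intro l _ _
            exact wt_nonneg l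
  have h2 : ∀ j ∈ Finset.Icc (-J) J, ms (X j) ≤ (1 / 2) ^ N * cm (St d R) d (j * s) (4 * s) n := by
    intro j hj
    have hjs' := hjs j hj
    have hT := tube_TD (R := R) (y := j * s) (g := 4 * s) hd hd2 (by omega) (by omega) hjs'.2 hR0 N
    refine le_trans ?_ (tube_bound hd hd2 (by omega) (by omega) hjs'.2 hR0 N (Sf j)
      (fun v hv => hSf j v (Or.inl hv)) n (hn' j hj))
    by_cases h0 : e = 0
    · have hDDeq : DD j = TD d R (j * s) (4 * s) N := by
        funext v
        apply propext
        constructor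
        · rintro (h | h)
          · exact h
          · omega
        · exact Or.inl
      have hle : ms (X j) ≤ mf (DD j) n (capZ (dk d (4 * s) N) (yk (j * s) (4 * s) N) (4 * s)) := by
        apply ms_mono
        intro l hl
        rw [hX, mem_lf] at hl
        rw [mem_lf]
        exact ⟨hl.1, hl.2.2 h0⟩
      rw [hDDeq] at hle
      exact hle
    · obtain ⟨N', rfl⟩ : ∃ N', N = N' + 1 := ⟨N - 1, by omega⟩
      have hy := hyk j (N' + 1)
      have hup := step_up (T := T) (R := R) hT (by omega) (by omega) (by rw [hy]; omega)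
        (by rw [hy]; omega)
        (fun w hw hwL => sharp_cap hd hd2 (by omega) (by omega) hjs'.2 hR0 hw hwL) (Sf j)
        (fun v hv => hSf j v (hv.imp id (fun h => ⟨by omega, h⟩))) n (hn' j hj)
      refine le_trans ?_ hup
      have hDDeq : DD j = fun v => TD d R (j * s) (4 * s) (N' + 1) v ∨
          Up (dk d (4 * s) (N' + 1)) T R v := by
        funext v
        apply propext
        constructor
        · exact fun h => h.imp id (fun h => h.2)
        · exact fun h => h.imp id (fun h => ⟨by omega, h⟩)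
      have hle : ms (X j) ≤ mf (DD j) n (fun z => z.1 - z.2 = T + 1) := by
        apply ms_mono
        intro l hl
        rw [hX, mem_lf] at hl
        rw [mem_lf]
        exact ⟨hl.1, hl.2.1⟩
      rw [hDDeq] at hle
      exact hle
  calc ms F ≤ ∑ j ∈ Finset.Icc (-J) J, (1 / 2) ^ N * cm (St d R) d (j * s) (4 * s) n :=
        h1.trans (Finset.sum_le_sum h2)
    _ = (1 / 2) ^ N * ∑ j ∈ Finset.Icc (-J) J, cm (St d R) d (j * s) (4 * s) n := by
        rw [Finset.mul_sum]
    _ ≤ _ := mul_le_mul_of_nonneg_left (sum_rows s hs d R J n) (by positivity)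

/-- the mass of a strip is at most one -/
theorem strip_le_one {d : ℤ} (hd : d % 2 = 0) (hd2 : 2 ≤ d) (F : Finset (List V))
    (hF : ∀ l ∈ F, ∃ z w K, l = z :: w :: K ∧ Val (fun v => 1 ≤ v.1 - v.2) l ∧
      z.1 - z.2 = d + 1 ∧ (∀ v ∈ l.tail.dropLast, v.1 - v.2 ≤ d)) : ms F ≤ 1 := by
  classical
  obtain ⟨n0, hn0⟩ : ∃ n0 : ℕ, ∀ l ∈ F, l.length ≤ n0 := ⟨F.sup List.length, fun l hl =>
    Finset.le_sup (f := List.length) hl⟩
  obtain ⟨R, hR⟩ : ∃ R : ℤ, R = n0 + 1 := ⟨_, rfl⟩
  have T : Tube (St d R) d 0 1 := tube_St hd hd2 (by omega) (by omega) (by omega) (by omega)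
  obtain ⟨S, hS⟩ : ∃ S : Finset V, ∀ v, St d R v → v ∈ S := by
    refine ⟨(fin_St d R).toFinset, fun v hv => ?_⟩
    rw [Set.Finite.mem_toFinset]
    exact hv
  have hsub : F ⊆ LS (St d R) (n0 + S.card) := by
    intro l hl
    obtain ⟨z, w, K, rfl, hval, hz, hle⟩ := hF l hl
    have hlen := hn0 _ hl
    have hlen' : ((z :: w :: K).length : ℤ) ≤ n0 := by exact_mod_cast hlen
    have hnear := Val_near hval
    rw [mem_LS]
    refine ⟨Val_dom hval ?_, by omega, ?_⟩
    · intro v hv
      have h1 := (Val_tail hval).2 v hv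
      have h2 := hnear v (List.mem_of_mem_tail (List.mem_of_mem_dropLast hv))
      rw [abs_le, abs_le] at h2
      have h3 := hle v hv
      unfold St
      omega
    · unfold St
      simp only [List.headD_cons]
      omega
  refine cap_le_one T.good S hS _ (by omega) F hsub ?_
  intro l hl
  obtain ⟨z, w, K, e, hval, hz, hle⟩ := hF l hl
  obtain ⟨z', v, K', rfl, hD⟩ := val_of_LS T.good (hsub hl)
  simp only [List.cons.injEq] at e
  obtain ⟨rfl, rfl, -⟩ := e
  have hv := hD.h5 v List.mem_cons_self
  have ha := hD.h2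
  rw [adj_iff] at ha
  unfold St at hv
  by_cases hc : z'.1 = v.1 + 1
  · exact (wind_ge T.good hD (by omega)).1 hc (by omega)
  · exfalso
    omega

end Pool.Agent.W818.TD
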