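import Pool.Agent.W818.TD.Wind

set_option autoImplicit false

/-! Masses of the walks which leave a finite good domain. -/

namespace Pool.Agent.W818.TD

open H978R2.Hex Complex

/-- weight of a reversed walk -/
noncomputable def wt (l : List V) : ℝ := (mu0⁻¹) ^ (l.length - 2)

theorem wt_nonneg (l : List V) : 0 ≤ wt l := by
  unfold wt
  have := mu0_pos
  positivity

open Classical in
/-- the walks with at most `n` vertices which leave the domain -/
noncomputable def LS (Om : V → Prop) (n : ℕ) : Finset (List V) :=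
  (Finset.range (n + 1)).biUnion (fun m => (P Om m).filter (fun l => ¬ Om (l.headD (0, 0))))

theorem mem_LS {Om : V → Prop} {n : ℕ} {l : List V} :
    l ∈ LS Om n ↔ Val Om l ∧ l.length ≤ n + 2 ∧ ¬ Om (l.headD (0, 0)) := by
  classical
  unfold LS
  simp only [Finset.mem_biUnion, Finset.mem_range, Finset.mem_filter, mem_P]
  constructor
  · rintro ⟨m, hm, ⟨h1, h2⟩, h3⟩
    exact ⟨h1, by omega, h3⟩
  · rintro ⟨h1, h2, h3⟩
    have h4 : 2 ≤ l.length := by
      match l, h1 with
      | [z, y], _ => simp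
      | z :: y :: x :: t, _ => simp
    exact ⟨l.length - 2, by omega, ⟨h1, by omega⟩, h3⟩

/-- total weight -/
noncomputable def ms (X : Finset (List V)) : ℝ := ∑ l ∈ X, wt l

theorem ms_nonneg (X : Finset (List V)) : 0 ≤ ms X := Finset.sum_nonneg fun l _ => wt_nonneg l

theorem ms_mono {X Y : Finset (List V)} (h : X ⊆ Y) : ms X ≤ ms Y :=
  Finset.sum_le_sum_of_subset_of_nonneg h fun l _ _ => wt_nonneg l

theorem ident_LS {Om : V → Prop} (G : Good Om) (S : Finset V) (hS : ∀ v, Om v → v ∈ S)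
    (n : ℕ) (hn : S.card ≤ n) :
    ∑ l ∈ LS Om n, exp ((W l : ℂ) * (Real.pi / 8) * I) * (wt l : ℂ) = 1 := by
  classical
  have h1 := ident Om G.base G.hp.slit n
  rw [free_empty S hS n hn, Finset.sum_empty] at h1
  have hmu : (mu0 : ℂ) ^ n ≠ 0 := pow_ne_zero _ (by exact_mod_cast mu0_pos.ne')
  have h2 := (mul_eq_zero.mp h1.symm).resolve_left hmu
  rw [sub_eq_zero] at h2
  rw [h2]
  unfold LS
  rw [Finset.sum_biUnion]
  · refine Finset.sum_congr rfl fun m _ => Finset.sum_congr rfl fun l hl => ?_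
    rw [Finset.mem_filter, mem_P] at hl
    unfold wt
    rw [hl.1.2, Nat.add_sub_cancel]
    push_cast
    rfl
  · intro i _ j _ hij
    simp only [Function.onFun]
    rw [Finset.disjoint_left]
    intro l h1 h2
    rw [Finset.mem_filter, mem_P] at h1 h2
    apply hij
    have := h1.1.2
    have := h2.1.2
    omega

/-- the real functional -/
noncomputable def ph (ε : ℤ) (w : ℤ) : ℝ := Real.sin (((3 + ε * w : ℤ) : ℝ) * (Real.pi / 8))

theorem ident_ph {Om : V → Prop} (G : Good Om) (S : Finset V) (hS : ∀ v, Om v → v ∈ S)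
    (n : ℕ) (hn : S.card ≤ n) (ε : ℤ) (hε : ε = 1 ∨ ε = -1) :
    ∑ l ∈ LS Om n, ph ε (W l) * wt l = Real.sin (3 * (Real.pi / 8)) := by
  have h := ident_LS G S hS n hn
  have hs := congrArg Complex.im h
  have hc := congrArg Complex.re h
  rw [Complex.im_sum] at hs
  rw [Complex.re_sum] at hc
  have e1 : ∀ l : List V, (exp ((W l : ℂ) * (Real.pi / 8) * I) * (wt l : ℂ)).im =
      Real.sin ((W l : ℝ) * (Real.pi / 8)) * wt l := by
    intro l
    rw [Complex.im_mul_ofReal]
    have : ((W l : ℂ) * (Real.pi / 8) * I) = (((W l : ℝ) * (Real.pi / 8) : ℝ) : ℂ) * I := by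
      push_cast; ring
    rw [this, Complex.exp_ofReal_mul_I_im]
  have e2 : ∀ l : List V, (exp ((W l : ℂ) * (Real.pi / 8) * I) * (wt l : ℂ)).re =
      Real.cos ((W l : ℝ) * (Real.pi / 8)) * wt l := by
    intro l
    rw [Complex.re_mul_ofReal]
    have : ((W l : ℂ) * (Real.pi / 8) * I) = (((W l : ℝ) * (Real.pi / 8) : ℝ) : ℂ) * I := by
      push_cast; ring
    rw [this, Complex.exp_ofReal_mul_I_re]
  simp only [e1, Complex.one_im] at hs
  simp only [e2, Complex.one_re] at hc
  have e3 : ∀ l : List V, ph ε (W l) * wt l =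
      Real.sin (3 * (Real.pi / 8)) * (Real.cos ((W l : ℝ) * (Real.pi / 8)) * wt l) +
      (ε : ℝ) * (Real.cos (3 * (Real.pi / 8)) * (Real.sin ((W l : ℝ) * (Real.pi / 8)) * wt l)) := by
    intro l
    unfold ph
    rcases hε with rfl | rfl
    · have : (((3 + 1 * W l : ℤ) : ℝ) * (Real.pi / 8)) =
          3 * (Real.pi / 8) + (W l : ℝ) * (Real.pi / 8) := by push_cast; ring
      rw [this, Real.sin_add]
      push_cast
      ring
    · have : (((3 + -1 * W l : ℤ) : ℝ) * (Real.pi / 8)) =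
          3 * (Real.pi / 8) - (W l : ℝ) * (Real.pi / 8) := by push_cast; ring
      rw [this, Real.sin_sub]
      push_cast
      ring
  rw [Finset.sum_congr rfl (fun l _ => e3 l), Finset.sum_add_distrib, ← Finset.mul_sum, hc,
    ← Finset.mul_sum, ← Finset.mul_sum, hs]
  ring

theorem ph_nonneg {ε w : ℤ} (hε : ε = 1 ∨ ε = -1) (h1 : -3 ≤ w) (h2 : w ≤ 3) : 0 ≤ ph ε w := by
  unfold ph
  have h3 : 0 ≤ 3 + ε * w ∧ 3 + ε * w ≤ 6 := by
    rcases hε with rfl | rfl <;> omega
  have h4 : (0 : ℝ) ≤ ((3 + ε * w : ℤ) : ℝ) := by exact_mod_cast h3.1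
  have h5 : ((3 + ε * w : ℤ) : ℝ) ≤ 6 := by exact_mod_cast h3.2
  have hpi := Real.pi_pos
  apply Real.sin_nonneg_of_nonneg_of_le_pi
  · positivity
  · nlinarith

theorem val_of_LS {Om : V → Prop} (G : Good Om) {n : ℕ} {l : List V} (hl : l ∈ LS Om n) :
    ∃ z v K, l = z :: v :: (K ++ [(0, 0)]) ∧ LandD Om z v K := by
  rw [mem_LS] at hl
  obtain ⟨z, v, K, e, a1, a2, a3, a4, a5, a6⟩ := land_struct G.base hl.1 hl.2.2
  refine ⟨z, v, K, e, a1, a2, a3, a4, a5, ?_, a6⟩
  have := hl.2.2
  rw [e] at this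
  exact this

open Classical in
/-- the walks which leave `D` at a vertex with the property `Q` -/
noncomputable def lf (D : V → Prop) (n : ℕ) (Q : V → Prop) : Finset (List V) :=
  (LS D n).filter (fun l => Q (l.headD (0, 0)))

theorem mem_lf {D : V → Prop} {n : ℕ} {Q : V → Prop} {l : List V} :
    l ∈ lf D n Q ↔ l ∈ LS D n ∧ Q (l.headD (0, 0)) := by
  classical
  unfold lf
  rw [Finset.mem_filter]

/-- mass of the walks which leave `D` at a vertex with the property `Q` -/
noncomputable def mf (D : V → Prop) (n : ℕ) (Q : V → Prop) : ℝ := ms (lf D n Q)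

open Classical in
/-- comparison of the masses of two nested domains -/
theorem contract {D D' : V → Prop} (G : Good D) (G' : Good D') (hsub : ∀ v, D v → D' v)
    (S : Finset V) (hS : ∀ v, D' v → v ∈ S) (n : ℕ) (hn : S.card ≤ n) (ε : ℤ)
    (hε : ε = 1 ∨ ε = -1) (w0 w1 : ℤ) (Q : V → Prop)
    (hA : ∀ z v K, LandD D z v K → D' z → W (z :: v :: (K ++ [(0, 0)])) = w0)
    (hB : ∀ z v K, LandD D' z v K → Q z → W (z :: v :: (K ++ [(0, 0)])) = w1 ∧ ¬ D v) :
    ph ε w1 * mf D' n Q ≤ ph ε w0 * mf D n D' := by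
  unfold mf lf
  have h1 := ident_ph G S (fun v hv => hS v (hsub v hv)) n hn ε hε
  have h2 := ident_ph G' S hS n hn ε hε
  have hnot : ∀ l ∈ (LS D n).filter (fun l => ¬ D' (l.headD (0, 0))), l ∈ LS D' n := by
    intro l hl
    rw [Finset.mem_filter, mem_LS] at hl
    rw [mem_LS]
    exact ⟨Val_mono hsub hl.1.1, hl.1.2.1, hl.2⟩
  have h3 : ∑ l ∈ (LS D n).filter (fun l => D' (l.headD (0, 0))), ph ε (W l) * wt l +
      ∑ l ∈ (LS D n).filter (fun l => ¬ D' (l.headD (0, 0))), ph ε (W l) * wt l =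
      Real.sin (3 * (Real.pi / 8)) := by
    rw [Finset.sum_filter_add_sum_filter_not, h1]
  have hdisj : Disjoint ((LS D' n).filter (fun l => Q (l.headD (0, 0))))
      ((LS D n).filter (fun l => ¬ D' (l.headD (0, 0)))) := by
    rw [Finset.disjoint_left]
    intro l h4 h5
    rw [Finset.mem_filter] at h4 h5
    obtain ⟨z, v, K, rfl, hD⟩ := val_of_LS G' h4.1
    have h6 := (hB z v K hD (by simpa using h4.2)).2
    obtain ⟨z', v', K', e, hD'⟩ := val_of_LS G h5.1
    simp only [List.cons.injEq] at e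
    apply h6
    rw [e.2.1]
    exact hD'.h5 v' List.mem_cons_self
  have h4 : ∑ l ∈ (LS D' n).filter (fun l => Q (l.headD (0, 0))), ph ε (W l) * wt l +
      ∑ l ∈ (LS D n).filter (fun l => ¬ D' (l.headD (0, 0))), ph ε (W l) * wt l ≤
      Real.sin (3 * (Real.pi / 8)) := by
    rw [← h2, ← Finset.sum_union hdisj]
    apply Finset.sum_le_sum_of_subset_of_nonneg
    · intro l hl
      rw [Finset.mem_union] at hl
      rcases hl with hl | hl
      · exact (Finset.mem_filter.1 hl).1
      · exact hnot l hl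
    · intro l hl _
      obtain ⟨z, v, K, rfl, hD⟩ := val_of_LS G' hl
      have := wind_range G' hD
      exact mul_nonneg (ph_nonneg hε this.1 this.2) (wt_nonneg _)
  have h5 : ∑ l ∈ (LS D' n).filter (fun l => Q (l.headD (0, 0))), ph ε (W l) * wt l =
      ph ε w1 * ms ((LS D' n).filter (fun l => Q (l.headD (0, 0)))) := by
    unfold ms
    rw [Finset.mul_sum]
    refine Finset.sum_congr rfl fun l hl => ?_
    rw [Finset.mem_filter] at hl
    obtain ⟨z, v, K, rfl, hD⟩ := val_of_LS G' hl.1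
    rw [(hB z v K hD (by simpa using hl.2)).1]
  have h6 : ∑ l ∈ (LS D n).filter (fun l => D' (l.headD (0, 0))), ph ε (W l) * wt l =
      ph ε w0 * ms ((LS D n).filter (fun l => D' (l.headD (0, 0)))) := by
    unfold ms
    rw [Finset.mul_sum]
    refine Finset.sum_congr rfl fun l hl => ?_
    rw [Finset.mem_filter] at hl
    obtain ⟨z, v, K, rfl, hD⟩ := val_of_LS G hl.1
    rw [hA z v K hD (by simpa using hl.2)]
  rw [← h5, ← h6]
  linarith

/-- the total mass leaving to the right through even vertices is at most one -/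
theorem cap_le_one {D : V → Prop} (G : Good D) (S : Finset V) (hS : ∀ v, D v → v ∈ S) (n : ℕ)
    (hn : S.card ≤ n) (X : Finset (List V)) (hX : X ⊆ LS D n) (hW : ∀ l ∈ X, W l = 0) :
    ms X ≤ 1 := by
  have h := ident_ph G S hS n hn 1 (Or.inl rfl)
  have h3 : 0 < Real.sin (3 * (Real.pi / 8)) := by
    have hpi := Real.pi_pos
    apply Real.sin_pos_of_pos_of_lt_pi
    · positivity
    · linarith
  have e : Real.sin (3 * (Real.pi / 8)) * ms X = ∑ l ∈ X, ph 1 (W l) * wt l := by
    unfold ms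
    rw [Finset.mul_sum]
    refine Finset.sum_congr rfl fun l hl => ?_
    rw [hW l hl]
    unfold ph
    norm_num
  have h1 : Real.sin (3 * (Real.pi / 8)) * ms X ≤ Real.sin (3 * (Real.pi / 8)) * 1 := by
    refine le_trans ?_ (h.le.trans (mul_one _).symm.le)
    rw [e]
    apply Finset.sum_le_sum_of_subset_of_nonneg hX
    intro l hl _
    obtain ⟨z, v, K, rfl, hD⟩ := val_of_LS G hl
    have := wind_range G hD
    exact mul_nonneg (ph_nonneg (Or.inl rfl) this.1 this.2) (wt_nonneg _)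
  exact le_of_mul_le_mul_left h1 h3

end Pool.Agent.W818.TD
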