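import Pool.Agent.W818.TD.Bridge

set_option autoImplicit false

/-! Reflection of bridges, masses of sets of bridges. -/

namespace Pool.Agent.W818.TD

open H978R2.Hex
open scoped ENNReal

/-- critical weight of a forward path -/
noncomputable def Wt (β : List V) : ℝ≥0∞ := ENNReal.ofReal ((mu0⁻¹) ^ (β.length - 1))

/-- critical mass of a set of forward paths -/
noncomputable def M (S : Set (List V)) : ℝ≥0∞ := ∑' β : S, Wt β

theorem M_mono {S T : Set (List V)} (h : S ⊆ T) : M S ≤ M T := ENNReal.tsum_mono_subtype Wt h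

theorem le_M {S : Set (List V)} (F : Finset (List V)) (hF : ∀ β ∈ F, β ∈ S) :
    ∑ β ∈ F, Wt β ≤ M S := by
  rw [← Finset.tsum_subtype F Wt]
  exact ENNReal.tsum_mono_subtype Wt (s := {x | x ∈ F}) (t := S) (fun β hβ => hF β hβ)

theorem M_le_of {S : Set (List V)} {c : ℝ≥0∞}
    (h : ∀ F : Finset (List V), (∀ β ∈ F, β ∈ S) → ∑ β ∈ F, Wt β ≤ c) : M S ≤ c := by
  unfold M
  rw [ENNReal.tsum_eq_iSup_sum]
  refine iSup_le fun s => ?_
  have := h (s.map ⟨Subtype.val, Subtype.val_injective⟩) (by
    intro β hβ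
    rw [Finset.mem_map] at hβ
    obtain ⟨a, _, rfl⟩ := hβ
    exact a.2)
  rw [Finset.sum_map] at this
  exact this

/-- reflection -/
def rf (z : V) (l : List V) : List V := l.map (fun v => z - v)

theorem adj_rf {z p q : V} (hz : (z.1 + z.2) % 2 = 1) (h : Adj p q) : Adj (z - q) (z - p) := by
  rw [adj_iff] at *
  simp only [Prod.fst_sub, Prod.snd_sub]
  omega

theorem mem_rf {z w : V} {l : List V} : w ∈ rf z l ↔ z - w ∈ l := by
  unfold rf
  rw [List.mem_map]
  constructor
  · rintro ⟨a, ha, rfl⟩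
    simpa using ha
  · intro h
    exact ⟨z - w, h, by simp⟩

theorem nodup_rf {z : V} {l : List V} (h : l.Nodup) : (rf z l).Nodup :=
  h.map (fun a b hab => by simpa using hab)

/-- forward path to reversed walk -/
def Phi (β : List V) : List V := rf (la β + (1, 0)) β ++ [(0, 0)]

theorem Phi_length (β : List V) : (Phi β).length = β.length + 1 := by
  unfold Phi rf
  simp

theorem Phi_spec {β : List V} (h : EBr β) (hT : 1 ≤ hl β) :
    ∃ w K, Phi β = (la β + (1, 0)) :: w :: K ∧ Val (fun v => 1 ≤ v.1 - v.2) (Phi β) ∧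
      ∀ v ∈ (Phi β).tail.dropLast, la β + (1, 0) - v ∈ β.tail := by
  obtain ⟨t, ht⟩ := h.cons
  have htne : t ≠ [] := by
    rintro rfl
    rw [ht] at hT
    simp [hl, la] at hT
  set z : V := la β + (1, 0) with hz
  have hzodd : (z.1 + z.2) % 2 = 1 := by
    have := h.la_even
    rw [hz]
    simp only [Prod.fst_add, Prod.snd_add]
    omega
  have hzL : z.1 - z.2 = hl β + 1 := by
    rw [hz]
    unfold hl
    simp only [Prod.fst_add, Prod.snd_add]
    omega
  have e1 : Phi β = z :: (rf z t ++ [(0, 0)]) := by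
    unfold Phi
    rw [← hz]
    conv_lhs => rw [ht]
    unfold rf
    have : z - ((0, 0) : V) = z := sub_zero z
    simp [this]
  have e2 : (Phi β).tail.dropLast = rf z t := by
    rw [e1, List.tail_cons, List.dropLast_concat]
  have e3 : β.dropLast ++ [la β] = β := by
    rw [la_eq h.ne]
    exact List.dropLast_append_getLast h.ne
  have e4 : Phi β = rf z β.dropLast ++ [(1, 0), (0, 0)] := by
    unfold Phi
    rw [← hz]
    conv_lhs => rw [← e3]
    unfold rf
    rw [List.map_append]
    have : z - la β = (1, 0) := by rw [hz]; simp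
    simp [this]
  obtain ⟨w, K, hwK⟩ : ∃ w K, rf z t ++ [((0, 0) : V)] = w :: K := by
    match t, htne with
    | a :: t', _ => exact ⟨_, _, rfl⟩
  refine ⟨w, K, by rw [e1, hwK], ?_, ?_⟩
  · apply Val_of
    · unfold Phi
      rw [← hz, List.isChain_append]
      refine ⟨?_, List.isChain_singleton _, ?_⟩
      · unfold rf
        rw [List.isChain_map]
        exact h.ch.imp fun {a b} hab => adj_rf hzodd hab
      · intro x hx y hy
        simp only [List.head?_cons, Option.mem_def, Option.some.injEq] at hy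
        have hx' : x = (1, 0) := by
          unfold rf at hx
          rw [Option.mem_def, List.getLast?_map, List.getLast?_eq_getLast_of_ne_nil h.ne] at hx
          simp only [Option.map_some, Option.some.injEq] at hx
          rw [← hx, ← la_eq h.ne, hz]
          simp
        rw [hx', ← hy, adj_iff]
        simp
    · unfold Phi
      rw [← hz, List.nodup_append]
      refine ⟨nodup_rf h.nd, List.nodup_singleton _, ?_⟩
      intro a ha b hb hab
      rw [List.mem_singleton] at hb
      rw [hab, hb, mem_rf] at ha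
      have := h.top _ ha
      simp only [Prod.fst_sub, Prod.snd_sub, sub_zero] at this
      omega
    · intro v hv
      rw [e2, mem_rf] at hv
      have := h.top (z - v) (by rw [ht]; exact List.mem_cons_of_mem _ hv)
      simp only [Prod.fst_sub, Prod.snd_sub] at this
      omega
    · exact ⟨_, e4⟩
  · intro v hv
    rw [e2, mem_rf] at hv
    rw [ht, List.tail_cons]
    exact hv

theorem Phi_inj {β β' : List V} (h : EBr β) (h' : EBr β') (he : Phi β = Phi β') : β = β' := by
  have hz : la β + (1, 0) = la β' + (1, 0) := by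
    obtain ⟨t, ht⟩ := h.cons
    obtain ⟨t', ht'⟩ := h'.cons
    have e1 : (Phi β).headD (0, 0) = la β + (1, 0) := by
      unfold Phi rf
      conv_lhs => rw [ht]
      have : la ((0, 0) :: t) + (1, 0) - ((0, 0) : V) = la ((0, 0) :: t) + (1, 0) := sub_zero _
      rw [List.map_cons, List.cons_append, List.headD_cons, this, ht]
    have e2 : (Phi β').headD (0, 0) = la β' + (1, 0) := by
      unfold Phi rf
      conv_lhs => rw [ht']
      have : la ((0, 0) :: t') + (1, 0) - ((0, 0) : V) = la ((0, 0) :: t') + (1, 0) := sub_zero _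
      rw [List.map_cons, List.cons_append, List.headD_cons, this, ht']
    rw [← e1, ← e2, he]
  unfold Phi at he
  rw [hz] at he
  have h1 := List.append_cancel_right he
  unfold rf at h1
  exact List.map_injective_iff.2 (fun (a b : V) (hab : la β' + (1, 0) - a = la β' + (1, 0) - b) =>
    sub_right_injective hab) h1

/-- reversed walk to forward path -/
def Psi (l : List V) : List V := rf (l.headD (0, 0)) l.dropLast

theorem Psi_spec {d : ℤ} (hd : d % 2 = 0) (hd0 : 1 ≤ d) {z w : V} {K : List V}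
    (hval : Val (fun v => 1 ≤ v.1 - v.2) (z :: w :: K)) (hz : z.1 - z.2 = d + 1)
    (hle : ∀ v ∈ (w :: K).dropLast, v.1 - v.2 ≤ d) :
    EBr (Psi (z :: w :: K)) ∧ hl (Psi (z :: w :: K)) = d := by
  obtain ⟨i1, i2, i3, M', i4⟩ := Val_chain hval
  simp only [List.tail_cons] at i2 i3
  have hzodd : (z.1 + z.2) % 2 = 1 := by omega
  have e1 : (z :: w :: K).dropLast = M' ++ [(1, 0)] := by
    rw [i4]
    have : M' ++ [((1, 0) : V), (0, 0)] = (M' ++ [(1, 0)]) ++ [(0, 0)] := by simp
    rw [this, List.dropLast_concat]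
  have e2 : (z :: w :: K).dropLast = z :: (w :: K).dropLast := List.dropLast_cons_of_ne_nil (by simp)
  have e3 : Psi (z :: w :: K) = (0, 0) :: rf z (w :: K).dropLast := by
    unfold Psi
    rw [e2]
    unfold rf
    simp only [List.headD_cons, List.map_cons, sub_self]
    rfl
  have e4 : Psi (z :: w :: K) = rf z M' ++ [z - (1, 0)] := by
    unfold Psi
    rw [e1]
    unfold rf
    simp
  have hla : la (Psi (z :: w :: K)) = z - (1, 0) := by
    rw [e4, la_append (by simp)]
    simp [la]
  have hhl : hl (Psi (z :: w :: K)) = d := by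
    unfold hl
    rw [hla]
    simp only [Prod.fst_sub, Prod.snd_sub]
    omega
  refine ⟨⟨by rw [e3]; rfl, ?_, ?_, ?_, ?_, by rw [hhl]; exact hd⟩, hhl⟩
  · unfold Psi rf
    rw [List.isChain_map]
    refine (List.IsChain.dropLast i1).imp fun {a b} hab => ?_
    exact adj_rf hzodd hab
  · unfold Psi
    apply nodup_rf
    rw [e2, List.nodup_cons]
    constructor
    · intro hm
      have := hle z hm
      omega
    · exact i2.sublist (List.dropLast_sublist _)
  · intro v hv
    rw [e3, List.tail_cons, mem_rf] at hv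
    have := hle _ hv
    simp only [Prod.fst_sub, Prod.snd_sub] at this
    omega
  · intro v hv
    rw [hhl]
    rw [e3] at hv
    rcases List.mem_cons.1 hv with rfl | hv
    · simp only
      omega
    · rw [mem_rf] at hv
      have := i3 _ hv
      simp only [Prod.fst_sub, Prod.snd_sub] at this
      omega

theorem Psi_inj {z w : V} {K : List V} {z' w' : V} {K' : List V}
    (hval : Val (fun v => 1 ≤ v.1 - v.2) (z :: w :: K))
    (hval' : Val (fun v => 1 ≤ v.1 - v.2) (z' :: w' :: K'))
    (h : Psi (z :: w :: K) = Psi (z' :: w' :: K')) : z :: w :: K = z' :: w' :: K' := by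
  obtain ⟨-, -, -, M1, i4⟩ := Val_chain hval
  obtain ⟨-, -, -, M1', i4'⟩ := Val_chain hval'
  have e : ∀ (N : List V), N ++ [((1, 0) : V), (0, 0)] = (N ++ [(1, 0)]) ++ [(0, 0)] := by
    intro N; simp
  have e1 : (z :: w :: K).dropLast = M1 ++ [(1, 0)] := by
    rw [i4, e, List.dropLast_concat]
  have e1' : (z' :: w' :: K').dropLast = M1' ++ [(1, 0)] := by
    rw [i4', e, List.dropLast_concat]
  have hla : la (Psi (z :: w :: K)) = z - (1, 0) := by
    unfold Psi
    rw [e1]
    unfold rf
    rw [List.map_append, la_append (by simp)]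
    simp [la]
  have hla' : la (Psi (z' :: w' :: K')) = z' - (1, 0) := by
    unfold Psi
    rw [e1']
    unfold rf
    rw [List.map_append, la_append (by simp)]
    simp [la]
  have hz : z = z' := by
    rw [h, hla'] at hla
    exact (sub_left_injective hla).symm
  unfold Psi rf at h
  simp only [List.headD_cons] at h
  rw [← hz] at h
  have h1 := List.map_injective_iff.2 (fun (a b : V) (hab : z - a = z - b) =>
    sub_right_injective hab) h
  rw [e1, hz, e1'] at h1
  rw [i4, i4', e, e, h1]

/-- the part of `β` at the heights `e < · ≤ H` has lateral extent less than `4 s` -/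
def Nar (s e H : ℤ) (β : List V) : Prop :=
  ∀ v ∈ β, ∀ v' ∈ β, e < v.1 - v.2 → v.1 - v.2 ≤ H → e < v'.1 - v'.2 → v'.1 - v'.2 ≤ H →
    (v.1 + 3 * v.2) - (v'.1 + 3 * v'.2) ≤ 4 * s - 1

theorem sum_Wt (F : Finset (List V)) (hF : ∀ β ∈ F, EBr β) :
    ∑ β ∈ F, Wt β = ENNReal.ofReal (ms (F.image Phi)) := by
  classical
  unfold ms
  rw [Finset.sum_image (fun a ha b hb h => Phi_inj (hF a ha) (hF b hb) h),
    ENNReal.ofReal_sum_of_nonneg (fun l _ => wt_nonneg _)]
  refine Finset.sum_congr rfl fun β _ => ?_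
  unfold Wt wt
  rw [Phi_length]
  congr 2

theorem mf_le_M {d : ℤ} (hd : d % 2 = 0) (hd2 : 2 ≤ d) (R : ℤ) (n : ℕ) :
    ENNReal.ofReal (mf (St d R) n (fun z => z.1 - z.2 = d + 1)) ≤ M {β | EBr β ∧ hl β = d} := by
  classical
  unfold mf ms
  rw [ENNReal.ofReal_sum_of_nonneg (fun l _ => wt_nonneg _)]
  set F := lf (St d R) n (fun z => z.1 - z.2 = d + 1) with hF
  have hspec : ∀ l ∈ F, ∃ z w K, l = z :: w :: K ∧ Val (fun v => 1 ≤ v.1 - v.2) l ∧
      z.1 - z.2 = d + 1 ∧ ∀ v ∈ (w :: K).dropLast, v.1 - v.2 ≤ d := by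
    intro l hl
    rw [hF, mem_lf, mem_LS] at hl
    obtain ⟨⟨h1, -, -⟩, h2⟩ := hl
    match l, h1, h2 with
    | z :: w :: K, h1, h2 =>
      refine ⟨z, w, K, rfl, Val_mono (fun v hv => hv.1) h1, h2, ?_⟩
      intro v hv
      exact ((Val_tail h1).2 v hv).2.1
  have h1 : ∑ l ∈ F, ENNReal.ofReal (wt l) = ∑ β ∈ F.image Psi, Wt β := by
    rw [Finset.sum_image]
    · refine Finset.sum_congr rfl fun l hl => ?_
      obtain ⟨z, w, K, rfl, -, -, -⟩ := hspec l hl
      unfold Wt wt Psi rf
      simp
    · intro l hl l' hl' h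
      obtain ⟨z, w, K, rfl, a1, -, -⟩ := hspec l hl
      obtain ⟨z', w', K', rfl, a1', -, -⟩ := hspec l' hl'
      exact Psi_inj a1 a1' h
  rw [h1]
  apply le_M
  intro β hβ
  rw [Finset.mem_image] at hβ
  obtain ⟨l, hl, rfl⟩ := hβ
  obtain ⟨z, w, K, rfl, a1, a2, a3⟩ := hspec l hl
  exact Psi_spec hd (by omega) a1 a2 a3

/-- **narrow bridges** -/
theorem M_narrow (s : ℤ) (hs : 1 ≤ s) (N : ℕ) (hN : 1 ≤ N) (e : ℤ) (he : e % 2 = 0)
    (he0 : 0 ≤ e) (d : ℤ) (hd : d % 2 = 0) (hd2 : 2 ≤ d) :
    M {β | EBr β ∧ hl β = d + 16 * s * N + e ∧ Nar s e (e + 16 * s * N) β} ≤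
      ENNReal.ofReal ((1 / 2) ^ N * 4) * M {β | EBr β ∧ hl β = d} := by
  classical
  apply M_le_of
  intro F hF
  rw [sum_Wt F (fun β hβ => (hF β hβ).1)]
  obtain ⟨R, n, h⟩ := tube_sum s hs N hN d hd hd2 e he he0 (F.image Phi) (by
    intro l hl
    rw [Finset.mem_image] at hl
    obtain ⟨β, hβ, rfl⟩ := hl
    obtain ⟨h1, h2, h3⟩ := hF β hβ
    have hsN : 1 ≤ s * (N : ℤ) := by
      have h1 : (1 : ℤ) ≤ N := by exact_mod_cast hN
      nlinarith
    have h16 : 16 * s * (N : ℤ) = 16 * (s * N) := by ring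
    obtain ⟨w, K, e1, hval, hmem⟩ := Phi_spec h1 (by omega)
    have hzL : (la β + (1, 0)).1 - (la β + (1, 0)).2 = d + 16 * s * N + e + 1 := by
      rw [← h2]
      unfold hl
      simp only [Prod.fst_add, Prod.snd_add]
      omega
    refine ⟨_, w, K, e1, hval, hzL, ?_, ?_⟩
    · intro v hv
      have h4 := hmem v hv
      have h5 := h1.pos _ h4
      simp only [Prod.fst_sub, Prod.snd_sub] at h5
      omega
    · intro v hv v' hv' h5 h5' h6 h6'
      have h4 := List.mem_of_mem_tail (hmem v hv)
      have h4' := List.mem_of_mem_tail (hmem v' hv')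
      have h7 := h3 _ h4' _ h4 (by
        simp only [Prod.fst_sub, Prod.snd_sub]
        omega) (by
        simp only [Prod.fst_sub, Prod.snd_sub]
        omega) (by
        simp only [Prod.fst_sub, Prod.snd_sub]
        omega) (by
        simp only [Prod.fst_sub, Prod.snd_sub]
        omega)
      simp only [Prod.fst_sub, Prod.snd_sub] at h7
      omega)
  calc ENNReal.ofReal (ms (F.image Phi))
      ≤ ENNReal.ofReal ((1 / 2) ^ N * (4 * mf (St d R) n (fun z => z.1 - z.2 = d + 1))) :=
        ENNReal.ofReal_le_ofReal h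
    _ = ENNReal.ofReal ((1 / 2) ^ N * 4) *
        ENNReal.ofReal (mf (St d R) n (fun z => z.1 - z.2 = d + 1)) := by
        rw [← ENNReal.ofReal_mul (by positivity)]
        congr 1
        ring
    _ ≤ _ := by
        gcongr
        exact mf_le_M hd hd2 R n

/-- the bridges of a given height have mass at most one -/
theorem M_le_one (d : ℤ) : M {β | EBr β ∧ hl β = d} ≤ 1 := by
  classical
  apply M_le_of
  intro F hF
  by_cases hd : d % 2 = 0
  swap
  · have : F = ∅ := by
      rw [Finset.eq_empty_iff_forall_notMem]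
      intro β hβ
      obtain ⟨h1, h2⟩ := hF β hβ
      have := h1.ev
      omega
    rw [this]
    simp
  by_cases hd2 : 2 ≤ d
  · rw [sum_Wt F (fun β hβ => (hF β hβ).1)]
    rw [← ENNReal.ofReal_one]
    apply ENNReal.ofReal_le_ofReal
    apply strip_le_one hd hd2
    intro l hl
    rw [Finset.mem_image] at hl
    obtain ⟨β, hβ, rfl⟩ := hl
    obtain ⟨h1, h2⟩ := hF β hβ
    obtain ⟨w, K, e, hval, hmem⟩ := Phi_spec h1 (by omega)
    refine ⟨_, w, K, e, hval, ?_, ?_⟩
    · rw [← h2]
      unfold hl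
      simp only [Prod.fst_add, Prod.snd_add]
      omega
    · intro v hv
      have h4 := hmem v hv
      have h5 := h1.pos _ h4
      simp only [Prod.fst_sub, Prod.snd_sub, Prod.fst_add, Prod.snd_add] at h5
      unfold hl at h2
      omega
  · have hsub : F ⊆ {[(0, 0)]} := by
      intro β hβ
      obtain ⟨h1, h2⟩ := hF β hβ
      rw [Finset.mem_singleton]
      exact h1.trivial_of (by omega)
    refine (Finset.sum_le_sum_of_subset hsub).trans ?_
    rw [Finset.sum_singleton]
    unfold Wt
    simp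

end Pool.Agent.W818.TD
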