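import Pool.Agent.W818.TD.Mass

set_option autoImplicit false

/-! Zigzag tubes: every pair of blocks halves the mass. -/

namespace Pool.Agent.W818.TD

open H978R2.Hex

/-- a domain below level `d` with an opening in the rows `y0, …, y0 + g - 1` -/
structure Tube (D : V → Prop) (d y0 g : ℤ) : Prop where
  hp : ∀ v, D v → 1 ≤ v.1 - v.2
  le : ∀ v, D v → v.1 - v.2 ≤ d
  base : D (1, 0)
  ev : d % 2 = 0
  gpos : 1 ≤ g
  cap : ∀ v : V, v.1 - v.2 = d → y0 ≤ v.2 → v.2 ≤ y0 + g - 1 → D v
  ex : ∀ v z, D v → Adj v z → ¬ D z → 1 ≤ z.1 - z.2 → z.1 - z.2 ≤ d →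
    (LU D z ∧ ¬ (z.1 = v.1 - 1 ∧ (v.1 + v.2) % 2 = 0)) ∨ (LD D z ∧ z.2 ≠ v.2 + 1)

theorem Tube.dpos {D : V → Prop} {d y0 g : ℤ} (T : Tube D d y0 g) : 1 ≤ d := by
  have h1 := T.hp _ T.base
  have h2 := T.le _ T.base
  omega

theorem Tube.good {D : V → Prop} {d y0 g : ℤ} (T : Tube D d y0 g) : Good D := by
  refine ⟨T.hp, T.base, fun v z hv ha hz h1 => ?_⟩
  have hle := T.le v hv
  by_cases hc : z.1 - z.2 ≤ d
  · exact T.ex v z hv ha hz h1 hc
  · left
    refine ⟨?_, ?_⟩
    · intro w hw e
      have := T.le w hw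
      omega
    · rw [adj_iff] at ha
      omega

def tri (d y0 g : ℤ) (v : V) : Prop :=
  d + 1 ≤ v.1 - v.2 ∧ y0 ≤ v.2 ∧ v.1 + v.2 ≤ d + 2 * y0 + 2 * g - 1

def pp (d y0 g : ℤ) (v : V) : Prop :=
  d + 1 ≤ v.1 - v.2 ∧ v.1 - v.2 ≤ d + 2 * g ∧ y0 ≤ v.2 ∧ v.2 ≤ y0 + g - 1

def pm (d y0 g : ℤ) (v : V) : Prop :=
  d + 1 ≤ v.1 - v.2 ∧ v.1 - v.2 ≤ d + 2 * g ∧ d + 2 * y0 ≤ v.1 + v.2 ∧
    v.1 + v.2 ≤ d + 2 * y0 + 2 * g - 1

/-- the exits of the old domain stay free -/
theorem old_exit {D X : V → Prop} {d y0 g : ℤ} (T : Tube D d y0 g)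
    (hX : ∀ v, X v → d + 1 ≤ v.1 - v.2)
    (hO : ∀ v : V, v.1 - v.2 = d + 1 → (X v ↔ y0 ≤ v.2 ∧ v.2 ≤ y0 + g - 1))
    {v z : V} (hv : D v) (ha : Adj v z) (hz : ¬ (D z ∨ X z)) (h1 : 1 ≤ z.1 - z.2) :
    (LU (fun w => D w ∨ X w) z ∧ ¬ (z.1 = v.1 - 1 ∧ (v.1 + v.2) % 2 = 0)) ∨
      (LD (fun w => D w ∨ X w) z ∧ z.2 ≠ v.2 + 1) := by
  rw [not_or] at hz
  have hle := T.le v hv
  by_cases hc : z.1 - z.2 ≤ d
  · rcases T.ex v z hv ha hz.1 h1 hc with h | h
    · left
      refine ⟨?_, h.2⟩
      rintro w (hw | hw) e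
      · exact h.1 w hw e
      · have := hX w hw
        omega
    · right
      refine ⟨?_, h.2⟩
      rintro w (hw | hw) e
      · exact h.1 w hw e
      · have := hX w hw
        omega
  · rw [adj_iff] at ha
    have hzX := hO z (by omega)
    have hz2 := hz.2
    rw [hzX] at hz2
    by_cases hr : z.2 < y0
    · right
      refine ⟨?_, by omega⟩
      rintro w (hw | hw) e
      · have := T.le w hw
        omega
      · rw [hO w (by omega)] at hw
        omega
    · left
      refine ⟨?_, by omega⟩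
      rintro w (hw | hw) e
      · have := T.le w hw
        omega
      · rw [hO w (by omega)] at hw
        omega

theorem tube_pp {D : V → Prop} {d y0 g : ℤ} (T : Tube D d y0 g) :
    Tube (fun v => D v ∨ pp d y0 g v) (d + 2 * g) y0 g := by
  have hg := T.gpos
  have hd := T.dpos
  have hev := T.ev
  refine ⟨?_, ?_, Or.inl T.base, by omega, hg, ?_, ?_⟩
  · rintro v (h | h)
    · exact T.hp v h
    · unfold pp at h; omega
  · rintro v (h | h)
    · have := T.le v h; omega
    · unfold pp at h; omega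
  · intro v h1 h2 h3
    right
    unfold pp
    omega
  · intro v z hv ha hz h1 hc
    rcases hv with hv | hv
    · exact old_exit T (fun v h => by unfold pp at h; omega) (fun v h => by unfold pp; omega)
        hv ha hz h1
    · rw [not_or] at hz
      obtain ⟨hz1, hz2⟩ := hz
      have hcap := T.cap z
      rw [adj_iff] at ha
      unfold pp at hv hz2
      have hL2 : d + 1 ≤ z.1 - z.2 := by
        by_contra hc
        exact hz1 (hcap (by omega) (by omega) (by omega))
      by_cases hc2 : y0 + g ≤ z.2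
      · left
        refine ⟨?_, by omega⟩
        rintro w (hw | hw) e
        · have := T.le w hw; omega
        · unfold pp at hw; omega
      · right
        have hc3 : z.2 = y0 - 1 := by omega
        refine ⟨?_, by omega⟩
        rintro w (hw | hw) e
        · have := T.le w hw; omega
        · unfold pp at hw; omega

theorem tube_pm {D : V → Prop} {d y0 g : ℤ} (T : Tube D d y0 g) :
    Tube (fun v => D v ∨ pm d y0 g v) (d + 2 * g) (y0 - g) g := by
  have hg := T.gpos
  have hd := T.dpos
  have hev := T.ev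
  refine ⟨?_, ?_, Or.inl T.base, by omega, hg, ?_, ?_⟩
  · rintro v (h | h)
    · exact T.hp v h
    · unfold pm at h; omega
  · rintro v (h | h)
    · have := T.le v h; omega
    · unfold pm at h; omega
  · intro v h1 h2 h3
    right
    unfold pm
    omega
  · intro v z hv ha hz h1 hc
    rcases hv with hv | hv
    · exact old_exit T (fun v h => by unfold pm at h; omega) (fun v h => by unfold pm; omega)
        hv ha hz h1
    · rw [not_or] at hz
      obtain ⟨hz1, hz2⟩ := hz
      have hcap := T.cap z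
      rw [adj_iff] at ha
      unfold pm at hv hz2
      have hL2 : d + 1 ≤ z.1 - z.2 := by
        by_contra hc
        exact hz1 (hcap (by omega) (by omega) (by omega))
      by_cases hc2 : d + 2 * y0 + 2 * g ≤ z.1 + z.2
      · left
        refine ⟨?_, by omega⟩
        rintro w (hw | hw) e
        · have := T.le w hw; omega
        · unfold pm at hw; omega
      · right
        have hc3 : z.1 + z.2 = d + 2 * y0 - 1 := by omega
        refine ⟨?_, by omega⟩
        rintro w (hw | hw) e
        · have := T.le w hw; omega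
        · unfold pm at hw; omega

theorem good_tri {D : V → Prop} {d y0 g : ℤ} (T : Tube D d y0 g) :
    Good (fun v => D v ∨ tri d y0 g v) := by
  have hg := T.gpos
  have hd := T.dpos
  have hev := T.ev
  refine ⟨?_, Or.inl T.base, ?_⟩
  · rintro v (h | h)
    · exact T.hp v h
    · unfold tri at h; omega
  · intro v z hv ha hz h1
    rcases hv with hv | hv
    · exact old_exit T (fun v h => by unfold tri at h; omega) (fun v h => by unfold tri; omega)
        hv ha hz h1
    · rw [not_or] at hz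
      obtain ⟨hz1, hz2⟩ := hz
      have hcap := T.cap z
      rw [adj_iff] at ha
      unfold tri at hv hz2
      have hL2 : d + 1 ≤ z.1 - z.2 := by
        by_contra hc
        exact hz1 (hcap (by omega) (by omega) (by omega))
      by_cases hc2 : z.2 < y0
      · right
        refine ⟨?_, by omega⟩
        rintro w (hw | hw) e
        · have := T.le w hw; omega
        · unfold tri at hw; omega
      · left
        refine ⟨?_, by omega⟩
        rintro w (hw | hw) e
        · have := T.le w hw; omega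
        · unfold tri at hw; omega

/-- the opening -/
def capZ (d y0 g : ℤ) (z : V) : Prop := z.1 - z.2 = d + 1 ∧ y0 ≤ z.2 ∧ z.2 ≤ y0 + g - 1

/-- the mass of the walks through the opening -/
noncomputable def cm (D : V → Prop) (d y0 g : ℤ) (n : ℕ) : ℝ := mf D n (capZ d y0 g)

theorem sin4 : Real.sin (4 * (Real.pi / 8)) = 1 := by
  have : 4 * (Real.pi / 8) = Real.pi / 2 := by ring
  rw [this, Real.sin_pi_div_two]

theorem sin2_sq : Real.sin (2 * (Real.pi / 8)) ^ 2 = 1 / 2 := by
  have : 2 * (Real.pi / 8) = Real.pi / 4 := by ring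
  rw [this, Real.sin_pi_div_four, div_pow, Real.sq_sqrt (by norm_num)]
  norm_num

theorem sin2_pos : 0 < Real.sin (2 * (Real.pi / 8)) := by
  have hpi := Real.pi_pos
  apply Real.sin_pos_of_pos_of_lt_pi
  · positivity
  · linarith

theorem sin3_pos : 0 < Real.sin (3 * (Real.pi / 8)) := by
  have hpi := Real.pi_pos
  apply Real.sin_pos_of_pos_of_lt_pi
  · positivity
  · linarith

/-- two comparisons combined -/
theorem two_steps {a b c : ℝ} (h1 : Real.sin (4 * (Real.pi / 8)) * b ≤ Real.sin (3 * (Real.pi / 8)) * a)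
    (h2 : Real.sin (3 * (Real.pi / 8)) * c ≤ Real.sin (2 * (Real.pi / 8)) * b) :
    c ≤ Real.sin (2 * (Real.pi / 8)) * a := by
  rw [sin4, one_mul] at h1
  have h3 : Real.sin (2 * (Real.pi / 8)) * b ≤
      Real.sin (2 * (Real.pi / 8)) * (Real.sin (3 * (Real.pi / 8)) * a) :=
    mul_le_mul_of_nonneg_left h1 sin2_pos.le
  have h4 : Real.sin (3 * (Real.pi / 8)) * c ≤
      Real.sin (3 * (Real.pi / 8)) * (Real.sin (2 * (Real.pi / 8)) * a) := by linarith
  exact le_of_mul_le_mul_left h4 sin3_pos

theorem ph_eq (ε w : ℤ) (k : ℤ) (h : 3 + ε * w = k) : ph ε w = Real.sin ((k : ℝ) * (Real.pi / 8)) := by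
  unfold ph
  rw [h]

/-- the first half step: openings of `D` into the triangle -/
theorem half_one {D X : V → Prop} {d y0 g : ℤ} (T : Tube D d y0 g) (S : Finset V)
    (hS : ∀ v, D v ∨ tri d y0 g v → v ∈ S) (n : ℕ) (hn : S.card ≤ n) (ε : ℤ)
    (hε : ε = 1 ∨ ε = -1)
    (hB : ∀ z v K, LandD (fun v => D v ∨ tri d y0 g v) z v K → (D z ∨ X z) →
      W (z :: v :: (K ++ [(0, 0)])) = ε ∧ ¬ D v) :
    Real.sin (4 * (Real.pi / 8)) *
      mf (fun v => D v ∨ tri d y0 g v) n (fun v => D v ∨ X v) ≤
      Real.sin (3 * (Real.pi / 8)) * cm D d y0 g n := by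
  have hg := T.gpos
  have hd := T.dpos
  have hev := T.ev
  have key := contract T.good (good_tri T) (fun v hv => Or.inl hv) S hS n hn ε hε 0 ε
    (fun z => D z ∨ X z) (fun z v K hD hz => by
      have hv := hD.h5 v List.mem_cons_self
      have h1 := T.le v hv
      have ha := hD.h2
      rcases hz with hz | hz
      · exact absurd hz hD.hz
      · unfold tri at hz
        rw [adj_iff] at ha
        have hw := wind_ge T.good hD (by omega)
        exact hw.1 (by omega) (by omega)) hB
  have e1 : 3 + ε * ε = 4 := by rcases hε with rfl | rfl <;> norm_num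
  rw [ph_eq ε ε 4 e1, ph_eq ε 0 3 (by ring)] at key
  push_cast at key
  refine key.trans (le_of_eq ?_)
  congr 1
  unfold cm mf
  congr 1
  ext l
  rw [mem_lf, mem_lf]
  refine and_congr_right fun hl => ?_
  obtain ⟨z, v, K, rfl, hD⟩ := val_of_LS T.good hl
  simp only [List.headD_cons]
  have hv := hD.h5 v List.mem_cons_self
  have h1 := T.le v hv
  have h0 := T.hp v hv
  have ha := hD.h2
  constructor
  · rintro (hz | hz)
    · exact absurd hz hD.hz
    · unfold tri at hz
      unfold capZ
      rw [adj_iff] at ha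
      omega
  · intro hz
    right
    unfold capZ at hz
    unfold tri
    omega

/-- the second half step -/
theorem half_two {D X : V → Prop} {d y0 g d' y0' : ℤ} (T : Tube D d y0 g)
    (T' : Tube (fun v => D v ∨ X v) d' y0' g) (hX : ∀ v, tri d y0 g v → X v) (S : Finset V)
    (hS : ∀ v, D v ∨ X v → v ∈ S) (n : ℕ) (hn : S.card ≤ n) (ε : ℤ)
    (hε : ε = 1 ∨ ε = -1) (hd' : d' = d + 2 * g)
    (hA : ∀ z v K, LandD (fun v => D v ∨ tri d y0 g v) z v K → (D z ∨ X z) →
      W (z :: v :: (K ++ [(0, 0)])) = ε ∧ ¬ D v) :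
    Real.sin (3 * (Real.pi / 8)) * cm (fun v => D v ∨ X v) d' y0' g n ≤
    Real.sin (2 * (Real.pi / 8)) *
      mf (fun v => D v ∨ tri d y0 g v) n (fun v => D v ∨ X v) := by
  have hg := T.gpos
  have hd := T.dpos
  have hev := T.ev
  have hev' := T'.ev
  have hsub : ∀ v, (D v ∨ tri d y0 g v) → (D v ∨ X v) := by
    rintro v (h | h)
    · exact Or.inl h
    · exact Or.inr (hX v h)
  have key := contract (good_tri T) T'.good hsub S hS n hn (-ε) (by omega) ε 0
    (capZ d' y0' g) (fun z v K hD hz => (hA z v K hD hz).1) (fun z v K hD hz => by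
      unfold capZ at hz
      have hv := hD.h5 v List.mem_cons_self
      have h1 := T'.le v hv
      have ha := hD.h2
      rw [adj_iff] at ha
      have hw := wind_ge T'.good hD (by omega)
      have hz1 : z.1 = v.1 + 1 := by omega
      refine ⟨hw.1 hz1 (by omega), ?_⟩
      rintro (h | h)
      · have := T.le v h
        omega
      · unfold tri at h
        omega)
  have e1 : 3 + -ε * ε = 2 := by rcases hε with rfl | rfl <;> norm_num
  rw [ph_eq (-ε) ε 2 e1, ph_eq (-ε) 0 3 (by ring)] at key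
  push_cast at key
  exact key

theorem hA_pp {D : V → Prop} {d y0 g : ℤ} (T : Tube D d y0 g) (z v : V) (K : List V)
    (hD : LandD (fun v => D v ∨ tri d y0 g v) z v K) (hz : D z ∨ pp d y0 g z) :
    W (z :: v :: (K ++ [(0, 0)])) = 1 ∧ ¬ D v := by
  have hg := T.gpos
  have hd := T.dpos
  have hev := T.ev
  have hzD := hD.hz
  rw [not_or] at hzD
  have hz2 := hz.resolve_left hzD.1
  have hv := hD.h5 v List.mem_cons_self
  have ha := hD.h2
  have hw := wind_ge (good_tri T) hD (by unfold pp at hz2; omega)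
  have hzt := hzD.2
  unfold tri at hzt
  unfold pp at hz2
  rcases hv with hv | hv
  · exfalso
    have h1 := T.le v hv
    rw [adj_iff] at ha
    omega
  · unfold tri at hv
    rw [adj_iff] at ha
    refine ⟨hw.2.1 (by omega) (by omega), ?_⟩
    intro h
    have := T.le v h
    omega

theorem hA_pm {D : V → Prop} {d y0 g : ℤ} (T : Tube D d y0 g) (z v : V) (K : List V)
    (hD : LandD (fun v => D v ∨ tri d y0 g v) z v K) (hz : D z ∨ pm d y0 g z) :
    W (z :: v :: (K ++ [(0, 0)])) = -1 ∧ ¬ D v := by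
  have hg := T.gpos
  have hd := T.dpos
  have hev := T.ev
  have hzD := hD.hz
  rw [not_or] at hzD
  have hz2 := hz.resolve_left hzD.1
  have hv := hD.h5 v List.mem_cons_self
  have ha := hD.h2
  have hw := wind_ge (good_tri T) hD (by unfold pm at hz2; omega)
  have hzt := hzD.2
  unfold tri at hzt
  unfold pm at hz2
  rcases hv with hv | hv
  · exfalso
    have h1 := T.le v hv
    rw [adj_iff] at ha
    omega
  · unfold tri at hv
    rw [adj_iff] at ha
    refine ⟨hw.2.2.2.1 (by omega), ?_⟩
    intro h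
    have := T.le v h
    omega

theorem step_pp {D : V → Prop} {d y0 g : ℤ} (T : Tube D d y0 g) (S : Finset V)
    (hS : ∀ v, D v ∨ pp d y0 g v → v ∈ S) (n : ℕ) (hn : S.card ≤ n) :
    cm (fun v => D v ∨ pp d y0 g v) (d + 2 * g) y0 g n ≤
      Real.sin (2 * (Real.pi / 8)) * cm D d y0 g n := by
  have hX : ∀ v, tri d y0 g v → pp d y0 g v := by
    intro v hv
    unfold tri at hv
    unfold pp
    omega
  exact two_steps
    (half_one (X := pp d y0 g) T S (fun v hv => hS v (hv.imp id (hX v))) n hn 1 (Or.inl rfl)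
      (hA_pp T))
    (half_two T (tube_pp T) hX S hS n hn 1 (Or.inl rfl) rfl (hA_pp T))

theorem step_pm {D : V → Prop} {d y0 g : ℤ} (T : Tube D d y0 g) (S : Finset V)
    (hS : ∀ v, D v ∨ pm d y0 g v → v ∈ S) (n : ℕ) (hn : S.card ≤ n) :
    cm (fun v => D v ∨ pm d y0 g v) (d + 2 * g) (y0 - g) g n ≤
      Real.sin (2 * (Real.pi / 8)) * cm D d y0 g n := by
  have hX : ∀ v, tri d y0 g v → pm d y0 g v := by
    intro v hv
    unfold tri at hv
    unfold pm
    omega
  exact two_steps
    (half_one (X := pm d y0 g) T S (fun v hv => hS v (hv.imp id (hX v))) n hn (-1) (Or.inr rfl)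
      (hA_pm T))
    (half_two T (tube_pm T) hX S hS n hn (-1) (Or.inr rfl) rfl (hA_pm T))

end Pool.Agent.W818.TD
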