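import Pool.Agent.H978R2.Hex.MassLemmas

set_option autoImplicit false

/-! Winding of the walks which leave a domain of the half-plane `x - y ≥ 1`. -/

namespace Pool.Agent.W818.TD

open H978R2.Hex Complex

/-- the domain is contained in the half-plane -/
def HPl (Om : V → Prop) : Prop := ∀ v, Om v → 1 ≤ v.1 - v.2

theorem HPl.slit {Om : V → Prop} (h : HPl Om) : ∀ v, Om v → ¬ Slit v := by
  intro v hv hs
  have := h v hv
  unfold Slit at hs
  omega

theorem not_slit_of {z : V} (hz : 1 ≤ z.1 - z.2) : ¬ Slit z := by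
  unfold Slit
  omega

/-- the vertices of the domain on the level of `z` are below `z` -/
def LU (Om : V → Prop) (z : V) : Prop := ∀ w, Om w → w.1 - w.2 = z.1 - z.2 → w.2 < z.2
/-- the vertices of the domain on the level of `z` are above `z` -/
def LD (Om : V → Prop) (z : V) : Prop := ∀ w, Om w → w.1 - w.2 = z.1 - z.2 → z.2 < w.2

/-- `e^{2πi/3}` -/
noncomputable def kU : ℂ := ⟨-(1 / 2), Real.sqrt 3 / 2⟩

theorem kU_ne : kU ≠ 0 := by
  intro h
  have := congrArg Complex.re h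
  simp only [kU, Complex.zero_re] at this
  norm_num at this

theorem arg_kU : arg kU = 2 * Real.pi / 3 := by
  have e : kU = ((Real.cos (2 * Real.pi / 3) : ℝ) : ℂ) + ((Real.sin (2 * Real.pi / 3) : ℝ) : ℂ) * I := by
    have h1 : Real.cos (2 * Real.pi / 3) = -(1 / 2) := by
      have : 2 * Real.pi / 3 = Real.pi - Real.pi / 3 := by ring
      rw [this, Real.cos_pi_sub, Real.cos_pi_div_three]
    have h2 : Real.sin (2 * Real.pi / 3) = Real.sqrt 3 / 2 := by
      have : 2 * Real.pi / 3 = Real.pi - Real.pi / 3 := by ring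
      rw [this, Real.sin_pi_sub, Real.sin_pi_div_three]
    rw [h1, h2]
    apply Complex.ext
    · simp [kU]
    · simp [kU]
  rw [e, Complex.ofReal_cos, Complex.ofReal_sin]
  apply Complex.arg_cos_add_sin_mul_I
  constructor <;> linarith [Real.pi_pos]

theorem kU_mul_im (a b : V) : (kU * (pos a - pos b)).im =
    ((3 * (a.1 - b.1) - (ht a - ht b) : ℤ) : ℝ) / 4 := by
  rw [Complex.mul_im, pos_sub_re, pos_sub_im]
  simp only [kU]
  have h := sq3
  push_cast
  linear_combination (((a.1 : ℝ) - b.1) / 4) * h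

theorem kU_mul_re (a b : V) : (kU * (pos a - pos b)).re =
    -(Real.sqrt 3 / 4 * (((a.1 - b.1) + (ht a - ht b) : ℤ) : ℝ)) := by
  rw [Complex.mul_re, pos_sub_re, pos_sub_im]
  simp only [kU]
  push_cast
  ring

/-- the argument of `kU (a - b)` : higher level, same level, lower level -/
theorem argdiff_lev {a b : V} (h : a.1 - a.2 = b.1 - b.2 → a.2 < b.2) :
    (b.1 - b.2 < a.1 - a.2 ∧ 0 < arg (kU * (pos a - pos b)) ∧
      arg (kU * (pos a - pos b)) < Real.pi) ∨
    (a.1 - a.2 = b.1 - b.2 ∧ arg (kU * (pos a - pos b)) = 0) ∨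
    (a.1 - a.2 < b.1 - b.2 ∧ -Real.pi < arg (kU * (pos a - pos b)) ∧
      arg (kU * (pos a - pos b)) < 0) := by
  have him := kU_mul_im a b
  have hre := kU_mul_re a b
  have h3 : 0 < Real.sqrt 3 := Real.sqrt_pos.mpr (by norm_num)
  rcases lt_trichotomy (a.1 - a.2) (b.1 - b.2) with h0 | h0 | h0
  · right; right
    refine ⟨h0, Complex.neg_pi_lt_arg _, Complex.arg_neg_iff.mpr ?_⟩
    rw [him]
    have h1 : ((3 * (a.1 - b.1) - (ht a - ht b) : ℤ) : ℝ) < 0 := by
      have : 3 * (a.1 - b.1) - (ht a - ht b) < 0 := by unfold ht; omega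
      exact_mod_cast this
    linarith
  · right; left
    refine ⟨h0, ?_⟩
    rw [Complex.arg_eq_zero_iff, hre, him]
    have hlt := h h0
    constructor
    · have h1 : (((a.1 - b.1) + (ht a - ht b) : ℤ) : ℝ) ≤ 0 := by
        have : (a.1 - b.1) + (ht a - ht b) ≤ 0 := by unfold ht; omega
        exact_mod_cast this
      have : Real.sqrt 3 / 4 * (((a.1 - b.1) + (ht a - ht b) : ℤ) : ℝ) ≤ 0 :=
        mul_nonpos_of_nonneg_of_nonpos (by positivity) h1
      linarith
    · have : 3 * (a.1 - b.1) - (ht a - ht b) = 0 := by unfold ht; omega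
      rw [this]
      simp
  · left
    have him' : 0 < (kU * (pos a - pos b)).im := by
      rw [him]
      have h1 : (0 : ℝ) < ((3 * (a.1 - b.1) - (ht a - ht b) : ℤ) : ℝ) := by
        have : 0 < 3 * (a.1 - b.1) - (ht a - ht b) := by unfold ht; omega
        exact_mod_cast this
      linarith
    refine ⟨h0, ?_, ?_⟩
    · rcases (Complex.arg_nonneg_iff.mpr him'.le).lt_or_eq with h2 | h2
      · exact h2
      · exfalso
        have := Complex.arg_eq_zero_iff.mp h2.symm
        linarith [this.2]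
    · rcases (Complex.arg_le_pi (kU * (pos a - pos b))).lt_or_eq with h2 | h2
      · exact h2
      · exfalso
        have := Complex.arg_eq_pi_iff.mp h2
        linarith [this.2]

theorem adj_levs {p q : V} (h : Adj p q) :
    p.1 - p.2 ≤ q.1 - q.2 + 1 ∧ q.1 - q.2 ≤ p.1 - p.2 + 1 := by
  rw [adj_iff] at h
  omega

/-- the cut goes up along the level of `z` -/
theorem step_LU {z p q : V} (h : Adj q p) (hp : p ≠ z ∧ (p.1 - p.2 = z.1 - z.2 → p.2 < z.2))
    (hq : q ≠ z ∧ (q.1 - q.2 = z.1 - z.2 → q.2 < z.2)) :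
    ang z p q = arg (kU * (pos p - pos z)) - arg (kU * (pos q - pos z)) := by
  apply ang_kappa (z := z) (p := p) (q := q) kU kU_ne hp.1 hq.1
  have h1 := abs_ang_lt (adj_symm h) hp.1 hq.1
  have hr := adj_levs h
  have hpi := Real.pi_pos
  rw [abs_lt] at h1
  rcases argdiff_lev hp.2 with ⟨a1, a2, a3⟩ | ⟨a1, a2⟩ | ⟨a1, a2, a3⟩ <;>
    rcases argdiff_lev hq.2 with ⟨b1, b2, b3⟩ | ⟨b1, b2⟩ | ⟨b1, b2, b3⟩ <;>
    first
    | (exfalso; omega)
    | (rw [abs_lt]; constructor <;> linarith [h1.1, h1.2])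

/-- the cut goes down along the level of `z` -/
theorem step_LD {z p q : V} (h : Adj q p) (hp : p ≠ z ∧ (z.1 - z.2 = p.1 - p.2 → z.2 < p.2))
    (hq : q ≠ z ∧ (z.1 - z.2 = q.1 - q.2 → z.2 < q.2)) :
    ang z p q = arg (kU * (pos z - pos p)) - arg (kU * (pos z - pos q)) := by
  have key := ang_kappa (z := z) (p := p) (q := q) (-kU) (neg_ne_zero.mpr kU_ne) hp.1 hq.1
  have e : ∀ w : V, -kU * (pos w - pos z) = kU * (pos z - pos w) := by
    intro w; ring
  rw [e, e] at key
  apply key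
  have h1 := abs_ang_lt (adj_symm h) hp.1 hq.1
  have hr := adj_levs h
  have hpi := Real.pi_pos
  rw [abs_lt] at h1
  rcases argdiff_lev hp.2 with ⟨a1, a2, a3⟩ | ⟨a1, a2⟩ | ⟨a1, a2, a3⟩ <;>
    rcases argdiff_lev hq.2 with ⟨b1, b2, b3⟩ | ⟨b1, b2⟩ | ⟨b1, b2, b3⟩ <;>
    first
    | (exfalso; omega)
    | (rw [abs_lt]; constructor <;> linarith [h1.1, h1.2])

theorem im_kU_pos {z : V} (hz1 : 1 ≤ z.1 - z.2) : 0 < (kU * pos z).im := by
  have h := kU_mul_im z (0, 0)
  rw [pos_zero, sub_zero] at h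
  rw [h]
  have h1 : (0 : ℝ) < ((3 * (z.1 - (0, 0).1) - (ht z - ht (0, 0)) : ℤ) : ℝ) := by
    have : 0 < 3 * (z.1 - (0, 0).1) - (ht z - ht (0, 0)) := by
      unfold ht
      simp only
      omega
    exact_mod_cast this
  linarith

theorem arg_kU_pos {z : V} (hz1 : 1 ≤ z.1 - z.2) :
    arg (kU * pos z) = arg (pos z) + 2 * Real.pi / 3 := by
  have hz0 : z ≠ (0, 0) := slit_ne (not_slit_of hz1)
  have hzn : pos z ≠ 0 := by
    have := pos_sub_ne hz0
    rwa [pos_zero, sub_zero] at this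
  have hpi := Real.pi_pos
  have him := im_kU_pos hz1
  have h1 : 0 ≤ arg (kU * pos z) := Complex.arg_nonneg_iff.mpr him.le
  have h2 := Complex.arg_le_pi (kU * pos z)
  have h3 := Complex.neg_pi_lt_arg (pos z)
  have h4 := Complex.arg_le_pi (pos z)
  by_cases hc : arg (pos z) + 2 * Real.pi / 3 ≤ Real.pi
  · rw [Complex.arg_mul kU_ne hzn, arg_kU]
    · ring
    · rw [arg_kU]
      constructor <;> linarith
  · exfalso
    rw [not_le] at hc
    -- then the argument of `kU * pos z` would be negative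
    have h5 : ((arg (kU * pos z) : ℝ) : Real.Angle) =
        ((arg (pos z) + 2 * Real.pi / 3 - 2 * Real.pi : ℝ) : Real.Angle) := by
      rw [Complex.arg_mul_coe_angle kU_ne hzn, arg_kU]
      have : (arg (pos z) + 2 * Real.pi / 3 - 2 * Real.pi : ℝ) =
          2 * Real.pi / 3 + arg (pos z) - 2 * Real.pi := by ring
      rw [this, Real.Angle.coe_sub, Real.Angle.coe_add, Real.Angle.coe_two_pi, sub_zero]
    have h6 := eq_of_angle h5 (by rw [abs_lt]; constructor <;> linarith)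
    linarith

theorem W_up {Om : V → Prop} (hO : HPl Om) {z v : V} {K : List V}
    (D : LandD Om z v K) (hz1 : 1 ≤ z.1 - z.2) (hf : LU Om z) :
    (W (z :: v :: (K ++ [(0, 0)])) : ℝ) * (Real.pi / 3) =
      Real.pi / 2 + arg (kU * (pos v - pos z)) := by
  have hOv := D.h5 v List.mem_cons_self
  have hsv := hO.slit v hOv
  have hzs := not_slit_of hz1
  have hz0 : z ≠ (0, 0) := slit_ne hzs
  have hfm := land_formula hO.slit D.h2 D.h3 D.h4 D.h5 D.h6 D.hz hz0
  rw [ang_origin (adj_symm D.h2) hzs hsv] at hfm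
  have hw := wind_tel z (fun w => arg (kU * (pos w - pos z)))
    (fun w => w ≠ z ∧ (w.1 - w.2 = z.1 - z.2 → w.2 < z.2))
    (fun p q h hp hq => step_LU h hp hq) v (K ++ [(0, 0)]) D.h3
    (mem_ext D.h5 (fun w hw => ⟨fun e => D.hz (e ▸ hw), fun e => hf w hw e⟩)
      ⟨hz0.symm, fun e => by
        simp only at e ⊢
        omega⟩)
  rw [last_zero] at hw
  simp only [pos_zero, zero_sub] at hw
  have e2 : kU * (-pos z) = -(kU * pos z) := by ring
  rw [e2, Complex.arg_neg_eq_arg_sub_pi_of_im_pos (im_kU_pos hz1), arg_kU_pos hz1] at hw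
  rw [hfm, hw]
  ring

theorem W_dn {Om : V → Prop} (hO : HPl Om) {z v : V} {K : List V}
    (D : LandD Om z v K) (hz1 : 1 ≤ z.1 - z.2) (hf : LD Om z) :
    (W (z :: v :: (K ++ [(0, 0)])) : ℝ) * (Real.pi / 3) =
      -(Real.pi / 2) + arg (kU * (pos z - pos v)) := by
  have hOv := D.h5 v List.mem_cons_self
  have hsv := hO.slit v hOv
  have hzs := not_slit_of hz1
  have hz0 : z ≠ (0, 0) := slit_ne hzs
  have hfm := land_formula hO.slit D.h2 D.h3 D.h4 D.h5 D.h6 D.hz hz0
  rw [ang_origin (adj_symm D.h2) hzs hsv] at hfm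
  have hw := wind_tel z (fun w => arg (kU * (pos z - pos w)))
    (fun w => w ≠ z ∧ (z.1 - z.2 = w.1 - w.2 → z.2 < w.2))
    (fun p q h hp hq => step_LD h hp hq) v (K ++ [(0, 0)]) D.h3
    (mem_ext D.h5 (fun w hw => ⟨fun e => D.hz (e ▸ hw), fun e => hf w hw e.symm⟩)
      ⟨hz0.symm, fun e => by
        simp only at e ⊢
        omega⟩)
  rw [last_zero] at hw
  simp only [pos_zero, sub_zero] at hw
  rw [arg_kU_pos hz1] at hw
  rw [hfm, hw]
  ring

/-- every exit vertex of positive level is above or below its level -/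
structure Good (Om : V → Prop) : Prop where
  hp : HPl Om
  base : Om (1, 0)
  fr : ∀ v z, Om v → Adj v z → ¬ Om z → 1 ≤ z.1 - z.2 →
    (LU Om z ∧ ¬ (z.1 = v.1 - 1 ∧ (v.1 + v.2) % 2 = 0)) ∨ (LD Om z ∧ z.2 ≠ v.2 + 1)

/-! ### the six directions -/

theorem mk_arg (x y : ℝ) (φ : ℝ) (h1 : Real.cos φ = x) (h2 : Real.sin φ = y)
    (h3 : -Real.pi < φ) (h4 : φ ≤ Real.pi) : arg ⟨x, y⟩ = φ := by
  have e : (⟨x, y⟩ : ℂ) = ((Real.cos φ : ℝ) : ℂ) + ((Real.sin φ : ℝ) : ℂ) * I := by
    rw [h1, h2]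
    apply Complex.ext <;> simp
  rw [e, Complex.ofReal_cos, Complex.ofReal_sin]
  exact Complex.arg_cos_add_sin_mul_I ⟨h3, h4⟩

theorem kU_mul_eq {a b : V} {x h : ℤ} (h1 : a.1 - b.1 = x) (h2 : ht a - ht b = h) :
    kU * (pos a - pos b) = ⟨-(Real.sqrt 3 / 4 * ((x + h : ℤ) : ℝ)), ((3 * x - h : ℤ) : ℝ) / 4⟩ := by
  apply Complex.ext
  · rw [kU_mul_re, h1, h2]
  · rw [kU_mul_im, h1, h2]

theorem cos_150 : Real.cos (5 * Real.pi / 6) = -(Real.sqrt 3 / 2) := by
  have : 5 * Real.pi / 6 = Real.pi - Real.pi / 6 := by ring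
  rw [this, Real.cos_pi_sub, Real.cos_pi_div_six]

theorem sin_150 : Real.sin (5 * Real.pi / 6) = 1 / 2 := by
  have : 5 * Real.pi / 6 = Real.pi - Real.pi / 6 := by ring
  rw [this, Real.sin_pi_sub, Real.sin_pi_div_six]

/-- `kU` times the six unit steps -/
theorem arg_six {a b : V} :
    ((a.1 - b.1 = 1 ∧ ht a - ht b = -1) → arg (kU * (pos a - pos b)) = Real.pi / 2) ∧
    ((a.1 - b.1 = -1 ∧ ht a - ht b = 1) → arg (kU * (pos a - pos b)) = -(Real.pi / 2)) ∧
    ((a.1 - b.1 = 1 ∧ ht a - ht b = 1) → arg (kU * (pos a - pos b)) = 5 * Real.pi / 6) ∧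
    ((a.1 - b.1 = -1 ∧ ht a - ht b = -1) → arg (kU * (pos a - pos b)) = -(Real.pi / 6)) ∧
    ((a.1 - b.1 = 0 ∧ ht a - ht b = 2) → arg (kU * (pos a - pos b)) = -(5 * Real.pi / 6)) ∧
    ((a.1 - b.1 = 0 ∧ ht a - ht b = -2) → arg (kU * (pos a - pos b)) = Real.pi / 6) := by
  have hpi := Real.pi_pos
  refine ⟨?_, ?_, ?_, ?_, ?_, ?_⟩
  · rintro ⟨h1, h2⟩
    rw [kU_mul_eq h1 h2]
    apply mk_arg
    · rw [Real.cos_pi_div_two]; norm_num
    · rw [Real.sin_pi_div_two]; norm_num
    · linarith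
    · linarith
  · rintro ⟨h1, h2⟩
    rw [kU_mul_eq h1 h2]
    apply mk_arg
    · rw [Real.cos_neg, Real.cos_pi_div_two]; norm_num
    · rw [Real.sin_neg, Real.sin_pi_div_two]; norm_num
    · linarith
    · linarith
  · rintro ⟨h1, h2⟩
    rw [kU_mul_eq h1 h2]
    apply mk_arg
    · rw [cos_150]; push_cast; ring
    · rw [sin_150]; norm_num
    · linarith
    · linarith
  · rintro ⟨h1, h2⟩
    rw [kU_mul_eq h1 h2]
    apply mk_arg
    · rw [Real.cos_neg, Real.cos_pi_div_six]; push_cast; ring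
    · rw [Real.sin_neg, Real.sin_pi_div_six]; norm_num
    · linarith
    · linarith
  · rintro ⟨h1, h2⟩
    rw [kU_mul_eq h1 h2]
    apply mk_arg
    · rw [Real.cos_neg, cos_150]; push_cast; ring
    · rw [Real.sin_neg, sin_150]; norm_num
    · linarith
    · linarith
  · rintro ⟨h1, h2⟩
    rw [kU_mul_eq h1 h2]
    apply mk_arg
    · rw [Real.cos_pi_div_six]; push_cast; ring
    · rw [Real.sin_pi_div_six]; norm_num
    · linarith
    · linarith

/-- the winding of a walk leaving a good domain at a positive level -/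
theorem wind_ge {Om : V → Prop} (G : Good Om) {z v : V} {K : List V} (D : LandD Om z v K)
    (hz1 : 1 ≤ z.1 - z.2) :
    (z.1 = v.1 + 1 → (v.1 + v.2) % 2 = 0 → W (z :: v :: (K ++ [(0, 0)])) = 0) ∧
    (z.1 = v.1 + 1 → (v.1 + v.2) % 2 = 1 → W (z :: v :: (K ++ [(0, 0)])) = 1) ∧
    (z.2 = v.2 + 1 → W (z :: v :: (K ++ [(0, 0)])) = 2) ∧
    (z.2 = v.2 - 1 → W (z :: v :: (K ++ [(0, 0)])) = -1) ∧
    (z.1 = v.1 - 1 → (v.1 + v.2) % 2 = 0 → W (z :: v :: (K ++ [(0, 0)])) = -2) ∧
    (z.1 = v.1 - 1 → (v.1 + v.2) % 2 = 1 → W (z :: v :: (K ++ [(0, 0)])) = 3 ∨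
      W (z :: v :: (K ++ [(0, 0)])) = -3) := by
  have hOv := D.h5 v List.mem_cons_self
  have ha := D.h2
  rw [adj_iff] at ha
  have fr := G.fr v z hOv D.h2 D.hz hz1
  have hmul : ∀ {φ : ℝ} {k : ℤ}, (W (z :: v :: (K ++ [(0, 0)])) : ℝ) * (Real.pi / 3) = φ →
      φ = (k : ℝ) * (Real.pi / 3) → W (z :: v :: (K ++ [(0, 0)])) = k :=
    fun h1 h2 => W_of (h1.trans h2)
  refine ⟨?_, ?_, ?_, ?_, ?_, ?_⟩
  · intro h1 hpar
    have e1 : v.1 - z.1 = -1 ∧ ht v - ht z = 1 := by unfold ht; omega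
    have e2 : z.1 - v.1 = 1 ∧ ht z - ht v = -1 := by unfold ht; omega
    rcases fr with f | f
    · refine hmul (W_up G.hp D hz1 f.1) ?_
      rw [arg_six.2.1 e1]; push_cast; ring
    · refine hmul (W_dn G.hp D hz1 f.1) ?_
      rw [arg_six.1 e2]; push_cast; ring
  · intro h1 hpar
    have e1 : v.1 - z.1 = -1 ∧ ht v - ht z = -1 := by unfold ht; omega
    have e2 : z.1 - v.1 = 1 ∧ ht z - ht v = 1 := by unfold ht; omega
    rcases fr with f | f
    · refine hmul (W_up G.hp D hz1 f.1) ?_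
      rw [arg_six.2.2.2.1 e1]; push_cast; ring
    · refine hmul (W_dn G.hp D hz1 f.1) ?_
      rw [arg_six.2.2.1 e2]; push_cast; ring
  · intro h1
    have e1 : v.1 - z.1 = 0 ∧ ht v - ht z = -2 := by unfold ht; omega
    rcases fr with f | f
    · refine hmul (W_up G.hp D hz1 f.1) ?_
      rw [arg_six.2.2.2.2.2 e1]; push_cast; ring
    · exact absurd h1 f.2
  · intro h1
    have e1 : v.1 - z.1 = 0 ∧ ht v - ht z = 2 := by unfold ht; omega
    have e2 : z.1 - v.1 = 0 ∧ ht z - ht v = -2 := by unfold ht; omega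
    rcases fr with f | f
    · refine hmul (W_up G.hp D hz1 f.1) ?_
      rw [arg_six.2.2.2.2.1 e1]; push_cast; ring
    · refine hmul (W_dn G.hp D hz1 f.1) ?_
      rw [arg_six.2.2.2.2.2 e2]; push_cast; ring
  · intro h1 hpar
    have e2 : z.1 - v.1 = -1 ∧ ht z - ht v = -1 := by unfold ht; omega
    rcases fr with f | f
    · exact absurd ⟨h1, hpar⟩ f.2
    · refine hmul (W_dn G.hp D hz1 f.1) ?_
      rw [arg_six.2.2.2.1 e2]; push_cast; ring
  · intro h1 hpar
    have e1 : v.1 - z.1 = 1 ∧ ht v - ht z = -1 := by unfold ht; omega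
    have e2 : z.1 - v.1 = -1 ∧ ht z - ht v = 1 := by unfold ht; omega
    rcases fr with f | f
    · left
      refine hmul (W_up G.hp D hz1 f.1) ?_
      rw [arg_six.1 e1]; push_cast; ring
    · right
      refine hmul (W_dn G.hp D hz1 f.1) ?_
      rw [arg_six.2.1 e2]; push_cast; ring

/-- the winding of a walk leaving a good domain through the boundary of the half-plane -/
theorem wind_zero {Om : V → Prop} (G : Good Om) {z v : V} {K : List V} (D : LandD Om z v K)
    (hz1 : z.1 - z.2 ≤ 0) :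
    W (z :: v :: (K ++ [(0, 0)])) = 3 ∨ W (z :: v :: (K ++ [(0, 0)])) = -3 := by
  have hOv := D.h5 v List.mem_cons_self
  have hv1 := G.hp v hOv
  have ha := D.h2
  rw [adj_iff] at ha
  have hvne : ∀ (hz0 : z = (0, 0)), False := by
    intro hz0
    subst hz0
    have hv : v = (1, 0) := by
      simp only at ha
      apply Prod.ext
      · simp only; omega
      · simp only; omega
    have hK : K ≠ [] := fun e => D.h7 e rfl
    have h6 := D.h6
    rw [List.getLast_cons hK] at h6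
    have hmem : (1, 0) ∈ K := h6 ▸ List.getLast_mem hK
    have h4 := D.h4
    rw [List.nodup_cons] at h4
    apply h4.1
    rw [hv]
    exact List.mem_append_left _ hmem
  have hrow : ∀ w, Om w → w.2 = z.2 → z.1 < w.1 := by
    intro w hw e
    have := G.hp w hw
    omega
  by_cases hleft : v.1 - z.1 = 1 ∧ z.2 = v.2
  · obtain ⟨e1, e2⟩ := hleft
    rcases lt_trichotomy z.2 0 with h | h | h
    · right
      exact (land_left_down G.hp.slit D e1 e2 (by omega) hrow).2 (by omega)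
    · exfalso
      apply hvne
      apply Prod.ext
      · simp only; omega
      · simp only; omega
    · left
      exact (land_left_up G.hp.slit D e1 e2 (by omega) hrow).2 (by omega)
  · exfalso
    omega

/-- the winding takes values in `[-3, 3]` -/
theorem wind_range {Om : V → Prop} (G : Good Om) {z v : V} {K : List V} (D : LandD Om z v K) :
    -3 ≤ W (z :: v :: (K ++ [(0, 0)])) ∧ W (z :: v :: (K ++ [(0, 0)])) ≤ 3 := by
  rcases le_or_gt (z.1 - z.2) 0 with h | h
  · rcases wind_zero G D h with h1 | h1 <;> rw [h1] <;> norm_num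
  · obtain ⟨a1, a2, a3, a4, a5, a6⟩ := wind_ge G D (by omega)
    have ha := D.h2
    rw [adj_iff] at ha
    rcases Int.emod_two_eq_zero_or_one (v.1 + v.2) with hp | hp
    · rcases ha with ha | ha | ha | ha
      · rw [a1 (by omega) hp]; norm_num
      · rw [a5 (by omega) hp]; norm_num
      · rw [a3 (by omega)]; norm_num
      · rw [a4 (by omega)]; norm_num
    · rcases ha with ha | ha | ha | ha
      · rw [a2 (by omega) hp]; norm_num
      · rcases a6 (by omega) hp with h6 | h6 <;> rw [h6] <;> norm_num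
      · rw [a3 (by omega)]; norm_num
      · rw [a4 (by omega)]; norm_num

end Pool.Agent.W818.TD
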